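import Pool.Agent.PLM.BCross

set_option autoImplicit false

/-!
# PLM, part B: counting points and classes

`Ez z`: the points `v` of `N` with `v + p z` in `N`.  `cnt`: the number of points is at most the number of classes
modulo `p` plus the number of coincidences, where chains of two coincidences are counted once.
-/

namespace PLMB

open Finset

variable {N : Finset (ℤ × ℤ)} {p : ℤ}

/-- the points `v` of `N` with `v + p z ∈ N` -/
def Ez (N : Finset (ℤ × ℤ)) (p : ℤ) (z : ℤ × ℤ) : Finset (ℤ × ℤ) := N.filter (fun v => ad v z p ∈ N)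

theorem mem_Ez {z v : ℤ × ℤ} : v ∈ Ez N p z ↔ v ∈ N ∧ ad v z p ∈ N := Finset.mem_filter

/-- the classes modulo `P` -/
def cl (P : ℕ) (N : Finset (ℤ × ℤ)) : Finset (ZMod P × ZMod P) :=
  N.image (fun v => ((v.1 : ZMod P), (v.2 : ZMod P)))

theorem cl_eq {P : ℕ} {v w : ℤ × ℤ} :
    (((v.1 : ℤ) : ZMod P), ((v.2 : ℤ) : ZMod P)) = (((w.1 : ℤ) : ZMod P), ((w.2 : ℤ) : ZMod P)) ↔
      ∃ z : ℤ × ℤ, w = ad v z (P : ℤ) := by
  rw [Prod.mk.injEq, ZMod.intCast_eq_intCast_iff_dvd_sub, ZMod.intCast_eq_intCast_iff_dvd_sub]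
  constructor
  · rintro ⟨⟨a, ha⟩, b, hb⟩
    refine ⟨(a, b), ?_⟩
    ext
    · show w.1 = v.1 + P * a
      linarith
    · show w.2 = v.2 + P * b
      linarith
  · rintro ⟨z, hz⟩
    refine ⟨⟨z.1, ?_⟩, z.2, ?_⟩
    · rw [hz]
      simp only [ad]
      ring
    · rw [hz]
      simp only [ad]
      ring

theorem ad_ad (v z : ℤ × ℤ) (s t : ℤ) : ad (ad v z s) z t = ad v z (s + t) := by
  ext <;> simp only [ad] <;> ring

private theorem neg_z (v z : ℤ × ℤ) (t : ℤ) : ad (ad v z t) (-z.1, -z.2) t = v := by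
  ext <;> simp only [ad] <;> ring

theorem cnt {P : ℕ} (hP : 0 < P) (hD : Hexd (P : ℤ) N) :
    N.card + ((N.filter (fun v => ad v (1, 0) P ∈ N ∧ ad v (1, 1) P ∈ N)).card +
      (N.filter (fun v => ad v (0, 1) P ∈ N ∧ ad v (1, 1) P ∈ N)).card) ≤
    (cl P N).card + ((Ez N P (1, 0)).card + (Ez N P (0, 1)).card + (Ez N P (1, 1)).card) := by
  classical
  set A : Finset (ℤ × ℤ) := N.filter
    (fun v => ad v (1, 0) (P : ℤ) ∉ N ∧ ad v (0, 1) (P : ℤ) ∉ N ∧ ad v (1, 1) (P : ℤ) ∉ N) with hA
  have hPz : (0 : ℤ) < P := by exact_mod_cast hP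
  have h1 : A.card ≤ (cl P N).card := by
    have h2 : A.card = (A.image (fun v => ((v.1 : ZMod P), (v.2 : ZMod P)))).card := by
      refine (Finset.card_image_of_injOn ?_).symm
      intro v hv w hw hvw
      rw [Finset.mem_coe, hA, Finset.mem_filter] at hv hw
      obtain ⟨z, hz⟩ := cl_eq.1 hvw
      by_contra hne
      have hz0 : z ≠ (0, 0) := by
        intro h
        apply hne
        rw [hz, h]
        ext <;> simp [ad]
      rcases hD v hv.1 z (by rw [← hz]; exact hw.1) hz0 with h | h | h | h | h | h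
      · exact hv.2.1 (by rw [← h, ← hz]; exact hw.1)
      · apply hw.2.1
        have := neg_z v z (P : ℤ)
        rw [← hz, h] at this
        simp only [neg_neg, neg_zero] at this
        rw [this]
        exact hv.1
      · exact hv.2.2.1 (by rw [← h, ← hz]; exact hw.1)
      · apply hw.2.2.1
        have := neg_z v z (P : ℤ)
        rw [← hz, h] at this
        simp only [neg_neg, neg_zero] at this
        rw [this]
        exact hv.1
      · exact hv.2.2.2 (by rw [← h, ← hz]; exact hw.1)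
      · apply hw.2.2.2
        have := neg_z v z (P : ℤ)
        rw [← hz, h] at this
        simp only [neg_neg, neg_zero] at this
        rw [this]
        exact hv.1
    rw [h2]
    exact Finset.card_le_card (Finset.image_subset_image (Finset.filter_subset _ _))
  have h3 : N.card + ((N.filter (fun v => ad v (1, 0) (P : ℤ) ∈ N ∧ ad v (1, 1) (P : ℤ) ∈ N)).card +
      (N.filter (fun v => ad v (0, 1) (P : ℤ) ∈ N ∧ ad v (1, 1) (P : ℤ) ∈ N)).card) ≤
      A.card + ((Ez N P (1, 0)).card + (Ez N P (0, 1)).card + (Ez N P (1, 1)).card) := by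
    rw [hA, Ez, Ez, Ez, Finset.card_filter, Finset.card_filter, Finset.card_filter, Finset.card_filter,
      Finset.card_filter, Finset.card_filter, Finset.card_eq_sum_ones, ← Finset.sum_add_distrib,
      ← Finset.sum_add_distrib, ← Finset.sum_add_distrib, ← Finset.sum_add_distrib, ← Finset.sum_add_distrib]
    refine Finset.sum_le_sum fun v hv => ?_
    have h4 : ¬ (ad v (1, 0) (P : ℤ) ∈ N ∧ ad v (0, 1) (P : ℤ) ∈ N) := by
      rintro ⟨ha, hb⟩
      have h5 : ad (ad v (1, 0) (P : ℤ)) (-1, 1) (P : ℤ) = ad v (0, 1) (P : ℤ) := by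
        ext <;> simp only [ad] <;> ring
      have h6 := hD _ ha (-1, 1) (by rw [h5]; exact hb) (by simp)
      simp [Hex] at h6
    by_cases ha : ad v (1, 0) (P : ℤ) ∈ N <;> by_cases hb : ad v (0, 1) (P : ℤ) ∈ N <;>
      by_cases hc : ad v (1, 1) (P : ℤ) ∈ N <;> simp_all
  omega

end PLMB
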