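import Mathlib

set_option autoImplicit false

/-!
# PLM, part B: the planar comparison lemma (counting part), first file

`N` is a finite set of lattice points of the plane, `LCon N`: every lattice point of its convex hull is in
`N`.  `p` is the modulus, `q = p + 1`; `QInj`: no two points of `N` are congruent modulo `q`; `Hexd`: if two points
of `N` are congruent modulo `p`, their difference is `p` times one of `±(1,0), ±(0,1), ±(1,1)`.

`cross`: lines with `p + 1` points in two of the three directions meet in a point of `N`.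
-/

namespace PLMB

/-- every lattice point of the convex hull belongs to `N` -/
def LCon (N : Finset (ℤ × ℤ)) : Prop :=
  ∀ v : ℤ × ℤ, ((v.1 : ℝ), (v.2 : ℝ)) ∈
    convexHull ℝ ((fun u : ℤ × ℤ => ((u.1 : ℝ), (u.2 : ℝ))) '' (N : Set (ℤ × ℤ))) → v ∈ N

/-- no two points are congruent modulo `p + 1` -/
def QInj (p : ℤ) (N : Finset (ℤ × ℤ)) : Prop :=
  ∀ v ∈ N, ∀ w ∈ N, (p + 1) ∣ v.1 - w.1 → (p + 1) ∣ v.2 - w.2 → v = w

/-- the six directions -/
def Hex (z : ℤ × ℤ) : Prop :=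
  z = (1, 0) ∨ z = (-1, 0) ∨ z = (0, 1) ∨ z = (0, -1) ∨ z = (1, 1) ∨ z = (-1, -1)

/-- `v + t z` -/
def ad (v z : ℤ × ℤ) (t : ℤ) : ℤ × ℤ := (v.1 + t * z.1, v.2 + t * z.2)

/-- points congruent modulo `p` differ by `p` times one of the six directions -/
def Hexd (p : ℤ) (N : Finset (ℤ × ℤ)) : Prop :=
  ∀ v ∈ N, ∀ z : ℤ × ℤ, ad v z p ∈ N → z ≠ (0, 0) → Hex z

variable {N : Finset (ℤ × ℤ)} {p : ℤ}

theorem lc4 (hN : LCon N) {a b c d w : ℤ × ℤ} (ha : a ∈ N) (hb : b ∈ N) (hc : c ∈ N) (hd : d ∈ N)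
    {α β γ δ : ℤ} (h1 : 0 ≤ α) (h2 : 0 ≤ β) (h3 : 0 ≤ γ) (h4 : 0 ≤ δ) (hs : 0 < α + β + γ + δ)
    (hx : (α + β + γ + δ) * w.1 = α * a.1 + β * b.1 + γ * c.1 + δ * d.1)
    (hy : (α + β + γ + δ) * w.2 = α * a.2 + β * b.2 + γ * c.2 + δ * d.2) : w ∈ N := by
  apply hN
  set S : Set (ℝ × ℝ) := (fun u : ℤ × ℤ => ((u.1 : ℝ), (u.2 : ℝ))) '' (N : Set (ℤ × ℤ)) with hS
  have mem : ∀ u ∈ N, ((u.1 : ℝ), (u.2 : ℝ)) ∈ convexHull ℝ S := fun u hu =>
    subset_convexHull ℝ S ⟨u, hu, rfl⟩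
  have hs' : (0 : ℝ) < (α : ℝ) + β + γ + δ := by exact_mod_cast hs
  have hx' : ((α : ℝ) + β + γ + δ) * w.1 = α * a.1 + β * b.1 + γ * c.1 + δ * d.1 := by exact_mod_cast hx
  have hy' : ((α : ℝ) + β + γ + δ) * w.2 = α * a.2 + β * b.2 + γ * c.2 + δ * d.2 := by exact_mod_cast hy
  have h1' : (0 : ℝ) ≤ α := by exact_mod_cast h1
  have h2' : (0 : ℝ) ≤ β := by exact_mod_cast h2
  have h3' : (0 : ℝ) ≤ γ := by exact_mod_cast h3
  have h4' : (0 : ℝ) ≤ δ := by exact_mod_cast h4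
  set s : ℝ := (α : ℝ) + β + γ + δ with hsd
  have key := (convex_convexHull ℝ S).sum_mem (t := (Finset.univ : Finset (Fin 4)))
    (w := ![(α : ℝ) / s, β / s, γ / s, δ / s])
    (z := ![((a.1 : ℝ), (a.2 : ℝ)), ((b.1 : ℝ), (b.2 : ℝ)), ((c.1 : ℝ), (c.2 : ℝ)), ((d.1 : ℝ), (d.2 : ℝ))])
    (by
      intro i _
      fin_cases i
      · exact div_nonneg h1' hs'.le
      · exact div_nonneg h2' hs'.le
      · exact div_nonneg h3' hs'.le
      · exact div_nonneg h4' hs'.le)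
    (by
      rw [Fin.sum_univ_four]
      show (α : ℝ) / s + β / s + γ / s + δ / s = 1
      rw [← add_div, ← add_div, ← add_div, ← hsd, div_self hs'.ne'])
    (by
      intro i _
      fin_cases i
      · exact mem a ha
      · exact mem b hb
      · exact mem c hc
      · exact mem d hd)
  have e : ((w.1 : ℝ), (w.2 : ℝ)) = ∑ i ∈ (Finset.univ : Finset (Fin 4)),
      (![(α : ℝ) / s, β / s, γ / s, δ / s] : Fin 4 → ℝ) i •
      (![((a.1 : ℝ), (a.2 : ℝ)), ((b.1 : ℝ), (b.2 : ℝ)), ((c.1 : ℝ), (c.2 : ℝ)), ((d.1 : ℝ), (d.2 : ℝ))] :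
        Fin 4 → ℝ × ℝ) i := by
    rw [Fin.sum_univ_four]
    show ((w.1 : ℝ), (w.2 : ℝ)) = ((α : ℝ) / s) • ((a.1 : ℝ), (a.2 : ℝ)) + ((β : ℝ) / s) • ((b.1 : ℝ), (b.2 : ℝ)) +
      ((γ : ℝ) / s) • ((c.1 : ℝ), (c.2 : ℝ)) + ((δ : ℝ) / s) • ((d.1 : ℝ), (d.2 : ℝ))
    ext
    · simp only [Prod.fst_add, Prod.smul_fst, smul_eq_mul]
      field_simp
      linarith
    · simp only [Prod.snd_add, Prod.smul_snd, smul_eq_mul]
      field_simp
      linarith
  rw [e]
  exact key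

theorem seg (hN : LCon N) {a b w : ℤ × ℤ} (ha : a ∈ N) (hb : b ∈ N) {m n : ℤ} (hm : 0 ≤ m) (hn : 0 ≤ n)
    (hs : 0 < m + n) (hx : (m + n) * w.1 = m * a.1 + n * b.1) (hy : (m + n) * w.2 = m * a.2 + n * b.2) :
    w ∈ N :=
  lc4 hN ha hb ha ha hm hn le_rfl le_rfl (by omega) (by rw [add_zero, add_zero, hx]; ring)
    (by rw [add_zero, add_zero, hy]; ring)

/-- lattice points between two points of `N` of a line -/
theorem chord (hN : LCon N) {V z : ℤ × ℤ} {s t r : ℤ} (h1 : ad V z s ∈ N) (h2 : ad V z t ∈ N)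
    (hs : s ≤ r) (ht : r ≤ t) : ad V z r ∈ N := by
  rcases eq_or_lt_of_le (hs.trans ht) with h | h
  · have : r = s := by omega
    rw [this]
    exact h1
  · refine seg hN h1 h2 (m := t - r) (n := r - s) (by omega) (by omega) (by omega) ?_ ?_
    · show (t - r + (r - s)) * (V.1 + r * z.1) = (t - r) * (V.1 + s * z.1) + (r - s) * (V.1 + t * z.1)
      ring
    · show (t - r + (r - s)) * (V.2 + r * z.2) = (t - r) * (V.2 + s * z.2) + (r - s) * (V.2 + t * z.2)
      ring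

theorem ad_zero (V z : ℤ × ℤ) : ad V z 0 = V := by
  ext <;> simp [ad]

/-- no chord with `p + 2` points -/
theorem no_long (hN : LCon N) (hp : 0 < p) (hq : QInj p N) {V z : ℤ × ℤ} (hz : z ≠ (0, 0)) {s t : ℤ}
    (h1 : ad V z s ∈ N) (h2 : ad V z t ∈ N) : t ≤ s + p := by
  by_contra h
  have h3 : ad V z (s + (p + 1)) ∈ N := chord hN h1 h2 (by omega) (by omega)
  have h4 := hq _ h3 _ h1 ⟨z.1, by simp only [ad]; ring⟩ ⟨z.2, by simp only [ad]; ring⟩
  apply hz
  have h5 := congrArg Prod.fst h4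
  have h6 := congrArg Prod.snd h4
  simp only [ad] at h5 h6
  have h7 : (p + 1) * z.1 = 0 := by linarith
  have h8 : (p + 1) * z.2 = 0 := by linarith
  rcases mul_eq_zero.1 h7 with h9 | h9
  · omega
  rcases mul_eq_zero.1 h8 with h10 | h10
  · omega
  exact Prod.ext h9 h10

/-- the line through `V` with `p + 1` points of `N` contains a point of `N` congruent to `V` -/
private theorem repr_line (hN : LCon N) (hp : 0 < p) {V z : ℤ × ℤ} {i : ℤ} (h1 : ad V z (-i) ∈ N)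
    (h2 : ad V z (p - i) ∈ N) : ad V z (-(p * (i / p))) ∈ N := by
  have h3 := Int.mul_ediv_add_emod i p
  have h4 := Int.emod_nonneg i (ne_of_gt hp)
  have h5 := Int.emod_lt_of_pos i hp
  exact chord hN h1 h2 (by omega) (by omega)

/-- crossing lemma -/
theorem cross (hN : LCon N) (hp : 0 < p) (hq : QInj p N) (hD : Hexd p N) {z z' V : ℤ × ℤ}
    (hz : ∀ k m : ℤ, k ≠ 0 → m ≠ 0 → Hex (k * z.1 - m * z'.1, k * z.2 - m * z'.2) →
      (k = 1 ∧ m = -1) ∨ (k = -1 ∧ m = 1))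
    (hne : ∀ k m : ℤ, k ≠ 0 → m ≠ 0 → (k * z.1 - m * z'.1, k * z.2 - m * z'.2) ≠ ((0, 0) : ℤ × ℤ))
    {i j : ℤ} (h1 : ad V z (-i) ∈ N) (h2 : ad V z (p - i) ∈ N) (h3 : ad V z' (-j) ∈ N)
    (h4 : ad V z' (p - j) ∈ N) : V ∈ N := by
  by_contra hV
  have hi : ¬ (0 ≤ i ∧ i ≤ p) := by
    rintro ⟨ha, hb⟩
    apply hV
    rw [← ad_zero V z]
    exact chord hN h1 h2 (by omega) (by omega)
  have hj : ¬ (0 ≤ j ∧ j ≤ p) := by
    rintro ⟨ha, hb⟩
    apply hV
    rw [← ad_zero V z']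
    exact chord hN h3 h4 (by omega) (by omega)
  have h5 := repr_line hN hp h1 h2
  have h6 := repr_line hN hp h3 h4
  have hki := Int.mul_ediv_add_emod i p
  have hki1 := Int.emod_nonneg i (ne_of_gt hp)
  have hki2 := Int.emod_lt_of_pos i hp
  have hkj := Int.mul_ediv_add_emod j p
  have hkj1 := Int.emod_nonneg j (ne_of_gt hp)
  have hkj2 := Int.emod_lt_of_pos j hp
  set k := i / p with hk
  set m := j / p with hm
  have hk0 : k ≠ 0 := by
    intro h
    rw [h] at hki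
    apply hi
    constructor <;> omega
  have hm0 : m ≠ 0 := by
    intro h
    rw [h] at hkj
    apply hj
    constructor <;> omega
  have h7 : ad (ad V z (-(p * k))) (k * z.1 - m * z'.1, k * z.2 - m * z'.2) p = ad V z' (-(p * m)) := by
    ext <;> simp only [ad] <;> ring
  have h8 := hD _ h5 _ (by rw [h7]; exact h6) (hne k m hk0 hm0)
  have hzz : z.1 + z'.1 ≠ 0 ∨ z.2 + z'.2 ≠ 0 := by
    by_contra hcon
    push Not at hcon
    apply hne 1 (-1) one_ne_zero (by norm_num)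
    ext
    · show 1 * z.1 - -1 * z'.1 = 0
      linarith [hcon.1]
    · show 1 * z.2 - -1 * z'.2 = 0
      linarith [hcon.2]
  have hzz' : (z.1 + z'.1, z.2 + z'.2) ≠ ((0, 0) : ℤ × ℤ) := by
    intro h
    have ha := congrArg Prod.fst h
    have hb := congrArg Prod.snd h
    simp only at ha hb
    rcases hzz with h | h
    · exact h ha
    · exact h hb
  rcases hz k m hk0 hm0 h8 with ⟨hk1, hm1⟩ | ⟨hk1, hm1⟩
  · -- `z`-chord before `V`, `z'`-chord after `V`
    rw [hk1] at hki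
    rw [hm1] at hkj
    have ha : i ≠ p := by
      intro h
      apply hi
      constructor <;> omega
    -- `i = p + i'`, `1 ≤ i' < p`, `j = -j'`, `1 ≤ j' ≤ p`
    set t := min (i - p) (-j) + p with ht
    have ht1 : ad V z (-t) ∈ N := chord hN h1 h2 (by omega) (by omega)
    have ht2 : ad V z' t ∈ N := chord hN h3 h4 (by omega) (by omega)
    have h9 : ad (ad V z (-t)) (z.1 + z'.1, z.2 + z'.2) t = ad V z' t := by
      ext <;> simp only [ad] <;> ring
    have h10 : ad (ad V z (-t)) (z.1 + z'.1, z.2 + z'.2) 0 ∈ N := by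
      rw [ad_zero]
      exact ht1
    have h11 := no_long hN hp hq hzz' h10 (by rw [h9]; exact ht2)
    omega
  · rw [hk1] at hki
    rw [hm1] at hkj
    have ha : j ≠ p := by
      intro h
      apply hj
      constructor <;> omega
    set t := min (j - p) (-i) + p with ht
    have ht1 : ad V z' (-t) ∈ N := chord hN h3 h4 (by omega) (by omega)
    have ht2 : ad V z t ∈ N := chord hN h1 h2 (by omega) (by omega)
    have h9 : ad (ad V z' (-t)) (z.1 + z'.1, z.2 + z'.2) t = ad V z t := by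
      ext <;> simp only [ad] <;> ring
    have h10 : ad (ad V z' (-t)) (z.1 + z'.1, z.2 + z'.2) 0 ∈ N := by
      rw [ad_zero]
      exact ht1
    have h11 := no_long hN hp hq hzz' h10 (by rw [h9]; exact ht2)
    omega

end PLMB
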