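import Pool.Agent.PLM.BCount

set_option autoImplicit false

/-!
# PLM, part B: full lines and representatives of the missing classes
-/

namespace PLMB

open Finset

variable {N : Finset (ℤ × ℤ)} {p : ℤ}

/-- a line between two chords with `p + 1` points meets all classes modulo `p` -/
theorem full (hN : LCon N) (hp : 0 < p) {a b z P : ℤ × ℤ} (ha : a ∈ N) (ha' : ad a z p ∈ N) (hb : b ∈ N)
    (hb' : ad b z p ∈ N) {m n s : ℤ} (hm : 0 ≤ m) (hn : 0 ≤ n) (hs : 0 < m + n)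
    (hx : (m + n) * P.1 = m * a.1 + n * b.1 + s * z.1) (hy : (m + n) * P.2 = m * a.2 + n * b.2 + s * z.2) :
    ∃ k : ℤ, ad P z (p * k) ∈ N := by
  have hM : 0 < p * (m + n) := mul_pos hp hs
  set M := p * (m + n) with hMd
  have h1 := Int.mul_ediv_add_emod s M
  have h2 := Int.emod_nonneg s hM.ne'
  have h3 := Int.emod_lt_of_pos s hM
  set s' := s % M with hs'
  set e := s / M with he
  refine ⟨-e, ?_⟩
  refine lc4 hN ha ha' hb hb' (α := m * (M - s')) (β := m * s') (γ := n * (M - s')) (δ := n * s')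
    (mul_nonneg hm (by omega)) (mul_nonneg hm h2) (mul_nonneg hn (by omega)) (mul_nonneg hn h2) ?_ ?_ ?_
  · have : m * (M - s') + m * s' + n * (M - s') + n * s' = (m + n) * M := by ring
    rw [this]
    exact mul_pos hs hM
  · show (m * (M - s') + m * s' + n * (M - s') + n * s') * (P.1 + p * -e * z.1) =
      m * (M - s') * a.1 + m * s' * (a.1 + p * z.1) + n * (M - s') * b.1 + n * s' * (b.1 + p * z.1)
    have e1 : (m * (M - s') + m * s' + n * (M - s') + n * s') * (P.1 + p * -e * z.1) =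
      M * ((m + n) * P.1) - M * (M * e) * z.1 := by
      rw [hMd]
      ring
    rw [e1, hx]
    have e2 : M * e = s - s' := by linarith
    rw [e2]
    have e3 : m * (M - s') * a.1 + m * s' * (a.1 + p * z.1) + n * (M - s') * b.1 + n * s' * (b.1 + p * z.1) =
      M * (m * a.1) + M * (n * b.1) + (p * (m + n)) * s' * z.1 := by ring
    rw [e3, ← hMd]
    ring
  · show (m * (M - s') + m * s' + n * (M - s') + n * s') * (P.2 + p * -e * z.2) =
      m * (M - s') * a.2 + m * s' * (a.2 + p * z.2) + n * (M - s') * b.2 + n * s' * (b.2 + p * z.2)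
    have e1 : (m * (M - s') + m * s' + n * (M - s') + n * s') * (P.2 + p * -e * z.2) =
      M * ((m + n) * P.2) - M * (M * e) * z.2 := by
      rw [hMd]
      ring
    rw [e1, hy]
    have e2 : M * e = s - s' := by linarith
    rw [e2]
    have e3 : m * (M - s') * a.2 + m * s' * (a.2 + p * z.2) + n * (M - s') * b.2 + n * s' * (b.2 + p * z.2) =
      M * (m * a.2) + M * (n * b.2) + (p * (m + n)) * s' * z.2 := by ring
    rw [e3, ← hMd]
    ring

/-- rows -/
theorem fullRow (hN : LCon N) (hp : 0 < p) {a b : ℤ × ℤ} (ha : a ∈ Ez N p (1, 0)) (hb : b ∈ Ez N p (1, 0))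
    {y : ℤ} (h1 : a.2 ≤ y) (h2 : y ≤ b.2) (x : ℤ) : ∃ k : ℤ, (x + p * k, y) ∈ N := by
  rw [mem_Ez] at ha hb
  have key : ∃ k : ℤ, ad (x, y) (1, 0) (p * k) ∈ N := by
    rcases eq_or_lt_of_le (h1.trans h2) with h | h
    · refine full hN hp ha.1 ha.2 ha.1 ha.2 (m := 1) (n := 0) (s := x - a.1) (by norm_num) le_rfl (by norm_num) ?_ ?_
      · show (1 + 0) * x = 1 * a.1 + 0 * a.1 + (x - a.1) * 1
        ring
      · show (1 + 0) * y = 1 * a.2 + 0 * a.2 + (x - a.1) * 0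
        have : y = a.2 := by omega
        rw [this]
        ring
    · refine full hN hp ha.1 ha.2 hb.1 hb.2 (m := b.2 - y) (n := y - a.2)
        (s := (b.2 - a.2) * x - (b.2 - y) * a.1 - (y - a.2) * b.1) (by omega) (by omega) (by omega) ?_ ?_
      · show (b.2 - y + (y - a.2)) * x = (b.2 - y) * a.1 + (y - a.2) * b.1 +
          ((b.2 - a.2) * x - (b.2 - y) * a.1 - (y - a.2) * b.1) * 1
        ring
      · show (b.2 - y + (y - a.2)) * y = (b.2 - y) * a.2 + (y - a.2) * b.2 +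
          ((b.2 - a.2) * x - (b.2 - y) * a.1 - (y - a.2) * b.1) * 0
        ring
  obtain ⟨k, hk⟩ := key
  refine ⟨k, ?_⟩
  have : ad (x, y) (1, 0) (p * k) = (x + p * k, y) := by ext <;> simp [ad]
  rw [← this]
  exact hk

/-- columns -/
theorem fullCol (hN : LCon N) (hp : 0 < p) {a b : ℤ × ℤ} (ha : a ∈ Ez N p (0, 1)) (hb : b ∈ Ez N p (0, 1))
    {x : ℤ} (h1 : a.1 ≤ x) (h2 : x ≤ b.1) (y : ℤ) : ∃ k : ℤ, (x, y + p * k) ∈ N := by
  rw [mem_Ez] at ha hb
  have key : ∃ k : ℤ, ad (x, y) (0, 1) (p * k) ∈ N := by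
    rcases eq_or_lt_of_le (h1.trans h2) with h | h
    · refine full hN hp ha.1 ha.2 ha.1 ha.2 (m := 1) (n := 0) (s := y - a.2) (by norm_num) le_rfl (by norm_num) ?_ ?_
      · show (1 + 0) * x = 1 * a.1 + 0 * a.1 + (y - a.2) * 0
        have : x = a.1 := by omega
        rw [this]
        ring
      · show (1 + 0) * y = 1 * a.2 + 0 * a.2 + (y - a.2) * 1
        ring
    · refine full hN hp ha.1 ha.2 hb.1 hb.2 (m := b.1 - x) (n := x - a.1)
        (s := (b.1 - a.1) * y - (b.1 - x) * a.2 - (x - a.1) * b.2) (by omega) (by omega) (by omega) ?_ ?_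
      · show (b.1 - x + (x - a.1)) * x = (b.1 - x) * a.1 + (x - a.1) * b.1 +
          ((b.1 - a.1) * y - (b.1 - x) * a.2 - (x - a.1) * b.2) * 0
        ring
      · show (b.1 - x + (x - a.1)) * y = (b.1 - x) * a.2 + (x - a.1) * b.2 +
          ((b.1 - a.1) * y - (b.1 - x) * a.2 - (x - a.1) * b.2) * 1
        ring
  obtain ⟨k, hk⟩ := key
  refine ⟨k, ?_⟩
  have : ad (x, y) (0, 1) (p * k) = (x, y + p * k) := by ext <;> simp [ad]
  rw [← this]
  exact hk

/-- diagonals -/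
theorem fullDia (hN : LCon N) (hp : 0 < p) {a b : ℤ × ℤ} (ha : a ∈ Ez N p (1, 1)) (hb : b ∈ Ez N p (1, 1))
    {x y : ℤ} (h1 : a.2 - a.1 ≤ y - x) (h2 : y - x ≤ b.2 - b.1) : ∃ k : ℤ, (x + p * k, y + p * k) ∈ N := by
  rw [mem_Ez] at ha hb
  have key : ∃ k : ℤ, ad (x, y) (1, 1) (p * k) ∈ N := by
    rcases eq_or_lt_of_le (h1.trans h2) with h | h
    · refine full hN hp ha.1 ha.2 ha.1 ha.2 (m := 1) (n := 0) (s := x - a.1) (by norm_num) le_rfl (by norm_num) ?_ ?_
      · show (1 + 0) * x = 1 * a.1 + 0 * a.1 + (x - a.1) * 1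
        ring
      · show (1 + 0) * y = 1 * a.2 + 0 * a.2 + (x - a.1) * 1
        have : y = a.2 - a.1 + x := by omega
        rw [this]
        ring
    · refine full hN hp ha.1 ha.2 hb.1 hb.2 (m := (b.2 - b.1) - (y - x)) (n := (y - x) - (a.2 - a.1))
        (s := ((b.2 - b.1) - (a.2 - a.1)) * x - ((b.2 - b.1) - (y - x)) * a.1 - ((y - x) - (a.2 - a.1)) * b.1)
        (by omega) (by omega) (by omega) ?_ ?_
      · show (b.2 - b.1 - (y - x) + (y - x - (a.2 - a.1))) * x =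
          (b.2 - b.1 - (y - x)) * a.1 + (y - x - (a.2 - a.1)) * b.1 +
          (((b.2 - b.1) - (a.2 - a.1)) * x - ((b.2 - b.1) - (y - x)) * a.1 - ((y - x) - (a.2 - a.1)) * b.1) * 1
        ring
      · show (b.2 - b.1 - (y - x) + (y - x - (a.2 - a.1))) * y =
          (b.2 - b.1 - (y - x)) * a.2 + (y - x - (a.2 - a.1)) * b.2 +
          (((b.2 - b.1) - (a.2 - a.1)) * x - ((b.2 - b.1) - (y - x)) * a.1 - ((y - x) - (a.2 - a.1)) * b.1) * 1
        ring
  obtain ⟨k, hk⟩ := key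
  refine ⟨k, ?_⟩
  have : ad (x, y) (1, 1) (p * k) = (x + p * k, y + p * k) := by ext <;> simp [ad]
  rw [← this]
  exact hk

/-! ### missing classes -/

/-- the class of the point `(x, y)` is not hit -/
def Mis (N : Finset (ℤ × ℤ)) (p : ℤ) (x y : ℤ) : Prop := ∀ k l : ℤ, (x + p * k, y + p * l) ∉ N

theorem Mis.shift {x y : ℤ} (h : Mis N p x y) (k l : ℤ) : Mis N p (x + p * k) (y + p * l) := by
  intro k' l' h'
  apply h (k + k') (l + l')
  have e1 : x + p * (k + k') = x + p * k + p * k' := by ring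
  have e2 : y + p * (l + l') = y + p * l + p * l' := by ring
  rw [e1, e2]
  exact h'

private theorem rep (hp : 0 < p) (x t : ℤ) : ∃ k : ℤ, t ≤ x + p * k ∧ x + p * k < t + p := by
  refine ⟨-((x - t) / p), ?_⟩
  have h1 := Int.mul_ediv_add_emod (x - t) p
  have h2 := Int.emod_nonneg (x - t) hp.ne'
  have h3 := Int.emod_lt_of_pos (x - t) hp
  have h4 : p * -((x - t) / p) = -(p * ((x - t) / p)) := by ring
  rw [h4]
  omega

/-- rows and columns -/
theorem misRC (hN : LCon N) (hp : 0 < p) {a b a' b' : ℤ × ℤ} (ha : a ∈ Ez N p (1, 0)) (hb : b ∈ Ez N p (1, 0))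
    (ha' : a' ∈ Ez N p (0, 1)) (hb' : b' ∈ Ez N p (0, 1))
    {x y : ℤ} (h : Mis N p x y) :
    ∃ k l : ℤ, b'.1 < x + p * k ∧ x + p * k < a'.1 + p ∧ b.2 < y + p * l ∧ y + p * l < a.2 + p := by
  obtain ⟨k, hk1, hk2⟩ := rep hp x a'.1
  obtain ⟨l, hl1, hl2⟩ := rep hp y a.2
  refine ⟨k, l, ?_, hk2, ?_, hl2⟩
  · by_contra hc
    obtain ⟨m, hm⟩ := fullCol hN hp ha' hb' hk1 (not_lt.1 hc) y
    have := (h.shift k 0) 0 m
    simp only [mul_zero, add_zero] at this
    exact this hm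
  · by_contra hc
    obtain ⟨m, hm⟩ := fullRow hN hp ha hb hl1 (not_lt.1 hc) x
    have := (h.shift 0 l) m 0
    simp only [mul_zero, add_zero] at this
    exact this hm

/-- rows and diagonals -/
theorem misRD (hN : LCon N) (hp : 0 < p) {a b a' b' : ℤ × ℤ} (ha : a ∈ Ez N p (1, 0)) (hb : b ∈ Ez N p (1, 0))
    (ha' : a' ∈ Ez N p (1, 1)) (hb' : b' ∈ Ez N p (1, 1))
    {x y : ℤ} (h : Mis N p x y) :
    ∃ k l : ℤ, b.2 < y + p * l ∧ y + p * l < a.2 + p ∧
      b'.2 - b'.1 < (y + p * l) - (x + p * k) ∧ (y + p * l) - (x + p * k) < a'.2 - a'.1 + p := by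
  obtain ⟨l, hl1, hl2⟩ := rep hp y a.2
  obtain ⟨k, hk1, hk2⟩ := rep hp ((y + p * l) - x) (a'.2 - a'.1)
  refine ⟨-k, l, ?_, hl2, ?_, ?_⟩
  · by_contra hc
    obtain ⟨m, hm⟩ := fullRow hN hp ha hb hl1 (not_lt.1 hc) x
    have := (h.shift 0 l) m 0
    simp only [mul_zero, add_zero] at this
    exact this hm
  · by_contra hc
    have e : y + p * l - (x + p * -k) = y + p * l - x + p * k := by ring
    obtain ⟨m, hm⟩ := fullDia hN hp ha' hb' (x := x + p * -k) (y := y + p * l) (by rw [e]; exact hk1) (not_lt.1 hc)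
    exact (h.shift (-k) l) m m hm
  · have e : y + p * l - (x + p * -k) = y + p * l - x + p * k := by ring
    rw [e]
    exact hk2

/-- columns and diagonals -/
theorem misCD (hN : LCon N) (hp : 0 < p) {a b a' b' : ℤ × ℤ} (ha : a ∈ Ez N p (0, 1)) (hb : b ∈ Ez N p (0, 1))
    (ha' : a' ∈ Ez N p (1, 1)) (hb' : b' ∈ Ez N p (1, 1))
    {x y : ℤ} (h : Mis N p x y) :
    ∃ k l : ℤ, b.1 < x + p * k ∧ x + p * k < a.1 + p ∧
      b'.2 - b'.1 < (y + p * l) - (x + p * k) ∧ (y + p * l) - (x + p * k) < a'.2 - a'.1 + p := by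
  obtain ⟨k, hk1, hk2⟩ := rep hp x a.1
  obtain ⟨l, hl1, hl2⟩ := rep hp (y - (x + p * k)) (a'.2 - a'.1)
  refine ⟨k, l, ?_, hk2, ?_, ?_⟩
  · by_contra hc
    obtain ⟨m, hm⟩ := fullCol hN hp ha hb hk1 (not_lt.1 hc) y
    have := (h.shift k 0) 0 m
    simp only [mul_zero, add_zero] at this
    exact this hm
  · by_contra hc
    have e : y + p * l - (x + p * k) = y - (x + p * k) + p * l := by ring
    obtain ⟨m, hm⟩ := fullDia hN hp ha' hb' (x := x + p * k) (y := y + p * l) (by rw [e]; exact hl1) (not_lt.1 hc)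
    exact (h.shift k l) m m hm
  · have e : y + p * l - (x + p * k) = y - (x + p * k) + p * l := by ring
    rw [e]
    exact hl2

/-- the missing classes are contained in two triangles -/
theorem misT (hN : LCon N) (hp : 0 < p) {a b a' b' c c' : ℤ × ℤ} (ha : a ∈ Ez N p (1, 0))
    (hb : b ∈ Ez N p (1, 0)) (ha' : a' ∈ Ez N p (0, 1)) (hb' : b' ∈ Ez N p (0, 1))
    (hc : c ∈ Ez N p (1, 1)) (hc' : c' ∈ Ez N p (1, 1))
    {x y : ℤ} (h : Mis N p x y) :
    ∃ k l : ℤ, (b'.1 < x + p * k ∧ y + p * l < a.2 + p ∧ c'.2 - c'.1 < (y + p * l) - (x + p * k)) ∨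
      (x + p * k < a'.1 + p ∧ b.2 < y + p * l ∧ (y + p * l) - (x + p * k) < c.2 - c.1) := by
  obtain ⟨k, l, h1, h2, h3, h4⟩ := misRC hN hp ha hb ha' hb' h
  refine ⟨k, l, ?_⟩
  by_cases h5 : c'.2 - c'.1 < (y + p * l) - (x + p * k)
  · exact Or.inl ⟨h1, h4, h5⟩
  · by_cases h6 : (y + p * l) - (x + p * k) < c.2 - c.1
    · exact Or.inr ⟨h2, h3, h6⟩
    · exfalso
      obtain ⟨m, hm⟩ := fullDia hN hp hc hc' (not_lt.1 h6) (not_lt.1 h5)
      exact (h.shift k l) m m hm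

end PLMB
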