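import Mathlib

set_option autoImplicit false

/-!
# PLM, part B: the numerical inequalities
-/

namespace PLMB

/-- triangle -/
def Tri (s : ℕ) : Finset (ℕ × ℕ) := (Finset.range s).biUnion (fun k => Finset.HasAntidiagonal.antidiagonal k)

theorem mem_Tri {s : ℕ} {i : ℕ × ℕ} : i ∈ Tri s ↔ i.1 + i.2 < s := by
  simp only [Tri, Finset.mem_biUnion, Finset.mem_range]
  constructor
  · rintro ⟨k, hk, h⟩
    have h2 := Finset.HasAntidiagonal.mem_antidiagonal.1 h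
    omega
  · intro h
    exact ⟨i.1 + i.2, h, Finset.HasAntidiagonal.mem_antidiagonal.2 rfl⟩

theorem card_Tri (s : ℕ) : 2 * (Tri s).card ≤ s * (s + 1) := by
  have h1 : (Tri s).card ≤ ∑ k ∈ Finset.range s, (k + 1) := by
    refine Finset.card_biUnion_le.trans (Finset.sum_le_sum fun k _ => ?_)
    rw [Finset.Nat.card_antidiagonal]
  have h2 : ∀ s : ℕ, 2 * ∑ k ∈ Finset.range s, (k + 1) = s * (s + 1) := by
    intro s
    induction s with
    | zero => simp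
    | succ s ih =>
      rw [Finset.sum_range_succ, mul_add, ih]
      ring
  rw [← h2 s]
  omega

theorem card_Tri_int (s : ℤ) (hs : -2 ≤ s) : 2 * ((Tri s.toNat).card : ℤ) ≤ s * (s + 1) ∧
    (s < 0 → ((Tri s.toNat).card : ℤ) = 0) := by
  constructor
  · rcases le_or_gt 0 s with h | h
    · have h1 := card_Tri s.toNat
      have h2 : ((s.toNat : ℕ) : ℤ) = s := Int.toNat_of_nonneg h
      have h3 : (2 : ℤ) * ((Tri s.toNat).card : ℤ) ≤ (s.toNat : ℤ) * ((s.toNat : ℤ) + 1) := by exact_mod_cast h1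
      rw [h2] at h3
      exact h3
    · have h1 : s.toNat = 0 := Int.toNat_of_nonpos h.le
      rw [h1]
      have h2 : (Tri 0).card = 0 := by simp [Tri]
      rw [h2]
      have h3 : 0 ≤ (-s) * (-(s + 1)) := mul_nonneg (by omega) (by omega)
      push_cast
      nlinarith
  · intro h
    have h1 : s.toNat = 0 := Int.toNat_of_nonpos h.le
    rw [h1]
    simp [Tri]

/-- one triangle -/
private theorem one {P s T e : ℤ} (hP : 1 ≤ P) (hs : -2 ≤ s) (hs' : s ≤ P - 1) (hT : 2 * T ≤ s * (s + 1))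
    (hT0 : s < 0 → T = 0) (he : 0 ≤ e) (he' : s = -2 → 1 ≤ e) : (2 * P + 1) * T ≤ P ^ 2 * (1 + s + e) := by
  rcases le_or_gt 0 s with h | h
  · have h1 : (2 * P + 1) * s ≤ 2 * P ^ 2 := by nlinarith
    have h2 : (2 * P + 1) * (2 * T) ≤ (2 * P + 1) * (s * (s + 1)) := by nlinarith
    have h3 : (2 * P + 1) * (s * (s + 1)) ≤ 2 * P ^ 2 * (s + 1) := by nlinarith
    have h4 : 0 ≤ P ^ 2 * e := mul_nonneg (sq_nonneg P) he
    nlinarith
  · rw [hT0 h, mul_zero]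
    refine mul_nonneg (sq_nonneg P) ?_
    rcases eq_or_lt_of_le hs with h1 | h1
    · have := he' h1.symm
      omega
    · omega

/-- the final inequality -/
theorem final {P c n e1 e2 F1 F2 F3 f1 f2 f3 sA sB M TA TB : ℤ} (hP : 1 ≤ P) (hM : 0 ≤ M) (hc : c = P ^ 2 - M)
    (hn : n + (e1 + e2) ≤ c + (f1 + f2 + f3)) (h1 : f1 ≤ F1) (h2 : f2 ≤ F2) (h3 : f3 ≤ F3)
    (hF1 : 1 ≤ F1) (hF2 : 1 ≤ F2) (hF3 : 1 ≤ F3)
    (hs : sA + sB = 2 * P - 1 - F1 - F2 - F3) (hA : -2 ≤ sA) (hB : -2 ≤ sB) (he1 : 0 ≤ e1) (he2 : 0 ≤ e2)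
    (hA2 : sA = -2 → 1 ≤ e1) (hB2 : sB = -2 → 1 ≤ e2) (hT : M ≤ TA + TB)
    (hTA : 2 * TA ≤ sA * (sA + 1)) (hTB : 2 * TB ≤ sB * (sB + 1)) (hTA0 : sA < 0 → TA = 0)
    (hTB0 : sB < 0 → TB = 0) (h12 : M ≤ (P - F1) * (P - F2)) (h13 : M ≤ (P - F1) * (P - F3))
    (h23 : M ≤ (P - F2) * (P - F3)) : P ^ 2 * n ≤ (P + 1) ^ 2 * c := by
  have key : P ^ 2 * (F1 + F2 + F3 - (e1 + e2)) ≤ (2 * P + 1) * c := by
    by_cases hcase : sA ≤ P - 1 ∧ sB ≤ P - 1
    · have hA' := one hP hA hcase.1 hTA hTA0 he1 hA2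
      have hB' := one hP hB hcase.2 hTB hTB0 he2 hB2
      have h5 : (2 * P + 1) * M ≤ (2 * P + 1) * (TA + TB) := by nlinarith
      have h6 : F1 + F2 + F3 = 2 * P - 1 - (sA + sB) := by omega
      rw [hc]
      have h7 : (2 * P + 1) * M ≤ P ^ 2 * (2 + (sA + sB) + (e1 + e2)) := by nlinarith
      rw [h6]
      nlinarith
    · have h5 : F1 + F2 + F3 ≤ P + 1 := by omega
      set S := F1 + F2 + F3 with hS
      have hSpos : 0 ≤ S := by omega
      have h6 : 3 * c ≥ 2 * P * S - (F1 * F2 + F1 * F3 + F2 * F3) := by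
        rw [hc, hS]
        nlinarith
      have h7 : 3 * (F1 * F2 + F1 * F3 + F2 * F3) ≤ S ^ 2 := by
        rw [hS]
        nlinarith [sq_nonneg (F1 - F2), sq_nonneg (F1 - F3), sq_nonneg (F2 - F3)]
      have h8 : 9 * c ≥ S * (6 * P - S) := by nlinarith
      have h9 : S * (6 * P - S) ≥ S * (5 * P - 1) := by
        apply mul_le_mul_of_nonneg_left _ hSpos
        omega
      have h10 : (2 * P + 1) * (9 * c) ≥ (2 * P + 1) * (S * (5 * P - 1)) := by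
        apply mul_le_mul_of_nonneg_left _ (by omega)
        linarith
      have h11 : (2 * P + 1) * (S * (5 * P - 1)) ≥ 9 * (P ^ 2 * S) := by
        have : (2 * P + 1) * (S * (5 * P - 1)) - 9 * (P ^ 2 * S) = S * (P ^ 2 + 3 * P - 1) := by ring
        have h12 : 0 ≤ S * (P ^ 2 + 3 * P - 1) := mul_nonneg hSpos (by nlinarith)
        linarith
      have h12 : 0 ≤ P ^ 2 * (e1 + e2) := mul_nonneg (sq_nonneg P) (by omega)
      nlinarith
  have h5 : n ≤ c + (F1 + F2 + F3 - (e1 + e2)) := by omega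
  have h6 : P ^ 2 * n ≤ P ^ 2 * (c + (F1 + F2 + F3 - (e1 + e2))) :=
    mul_le_mul_of_nonneg_left h5 (sq_nonneg P)
  nlinarith

/-- the case of at most two directions -/
theorem final2 {P c n f1 f2 f3 : ℤ} (hP : 1 ≤ P) (hc : 0 ≤ c)
    (hn : n ≤ c + (f1 + f2 + f3)) (h1 : P * f1 ≤ c) (h2 : P * f2 ≤ c) (h3 : P * f3 ≤ c)
    (h0 : f1 = 0 ∨ f2 = 0 ∨ f3 = 0) : P ^ 2 * n ≤ (P + 1) ^ 2 * c := by
  have h4 : P * (f1 + f2 + f3) ≤ 2 * c := by
    rcases h0 with h | h | h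
    · rw [h] at h1 ⊢
      nlinarith
    · rw [h] at h2 ⊢
      nlinarith
    · rw [h] at h3 ⊢
      nlinarith
  have h5 : P ^ 2 * n ≤ P ^ 2 * (c + (f1 + f2 + f3)) := mul_le_mul_of_nonneg_left hn (sq_nonneg P)
  have h6 : P * (P * (f1 + f2 + f3)) ≤ P * (2 * c) := mul_le_mul_of_nonneg_left h4 (by omega)
  nlinarith

end PLMB
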