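import Mathlib

/-!
# Planar comparison of residue classes (project PLM, MP_98df5b_co)

Target (Main.lean): for a finite set `N` of integer points of the plane with
`N = conv N ∩ Z^2` and `p > 0`:
`p ^ 2 * |N mod (p+1)| <= (p+1) ^ 2 * |N mod p|`.

* Geometry part (helper86): reduction to `QI (p+1) N`, the directions of `p`-chords.
* Counting part (helper58): `partB`.
-/

namespace Pool.Agent.PLM

/-- the real point of an integer point -/
def rp (z : ℤ × ℤ) : ℝ × ℝ := ((z.1 : ℝ), (z.2 : ℝ))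

/-- the convex hull of a finite set of integer points -/
def hl (N : Finset (ℤ × ℤ)) : Set (ℝ × ℝ) := convexHull ℝ (rp '' (N : Set (ℤ × ℤ)))

/-- lattice convex: all integer points of the convex hull are in `N` -/
def LC (N : Finset (ℤ × ℤ)) : Prop := ∀ z : ℤ × ℤ, rp z ∈ hl N → z ∈ N

/-- the residue class of an integer point -/
def red (n : ℕ) (z : ℤ × ℤ) : ZMod n × ZMod n := ((z.1 : ZMod n), (z.2 : ZMod n))

/-- the residue classes hit by `N` -/
def cls (n : ℕ) (N : Finset (ℤ × ℤ)) : Finset (ZMod n × ZMod n) := by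
  classical exact N.image (red n)

/-- no two different points of `N` are congruent modulo `q` -/
def QI (q : ℕ) (N : Finset (ℤ × ℤ)) : Prop := ∀ v ∈ N, ∀ w ∈ N, red q v = red q w → v = w

/-- all `p`-chords of `N` have direction `(1,0)`, `(0,1)` or `(1,1)` -/
def Dir3 (p : ℕ) (N : Finset (ℤ × ℤ)) : Prop :=
  ∀ v ∈ N, ∀ a b : ℤ, (v.1 + p * a, v.2 + p * b) ∈ N →
    (a = 0 ∧ b = 0) ∨ (a = 1 ∧ b = 0) ∨ (a = -1 ∧ b = 0) ∨ (a = 0 ∧ b = 1) ∨ (a = 0 ∧ b = -1) ∨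
      (a = 1 ∧ b = 1) ∨ (a = -1 ∧ b = -1)

/-- the statement of the counting part -/
def PartB : Prop := ∀ (p : ℕ) (N : Finset (ℤ × ℤ)), 0 < p → LC N → QI (p + 1) N → Dir3 p N →
  p ^ 2 * N.card ≤ (p + 1) ^ 2 * (cls p N).card

/-- the planar comparison -/
def Planar : Prop := ∀ (p : ℕ) (N : Finset (ℤ × ℤ)), 0 < p → LC N →
  p ^ 2 * (cls (p + 1) N).card ≤ (p + 1) ^ 2 * (cls p N).card

theorem mem_cls {n : ℕ} {N : Finset (ℤ × ℤ)} {c : ZMod n × ZMod n} :
    c ∈ cls n N ↔ ∃ z ∈ N, red n z = c := by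
  classical
  simp [cls]

theorem red_eq_iff {n : ℕ} {v w : ℤ × ℤ} :
    red n v = red n w ↔ ∃ a b : ℤ, w.1 = v.1 + n * a ∧ w.2 = v.2 + n * b := by
  constructor
  · intro h
    have h1 : ((v.1 : ℤ) : ZMod n) = (w.1 : ZMod n) := congrArg Prod.fst h
    have h2 : ((v.2 : ℤ) : ZMod n) = (w.2 : ZMod n) := congrArg Prod.snd h
    obtain ⟨a, ha⟩ := (ZMod.intCast_eq_intCast_iff_dvd_sub _ _ _).1 h1
    obtain ⟨b, hb⟩ := (ZMod.intCast_eq_intCast_iff_dvd_sub _ _ _).1 h2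
    exact ⟨a, b, by omega, by omega⟩
  · rintro ⟨a, b, ha, hb⟩
    unfold red
    rw [ha, hb]
    simp

theorem subset_hl {N : Finset (ℤ × ℤ)} {z : ℤ × ℤ} (hz : z ∈ N) : rp z ∈ hl N :=
  subset_convexHull ℝ _ ⟨z, hz, rfl⟩

theorem hl_convex (N : Finset (ℤ × ℤ)) : Convex ℝ (hl N) := convex_convexHull ℝ _

/-- integer points of a real segment between points of the hull -/
theorem LC.seg {N : Finset (ℤ × ℤ)} (hN : LC N) {x y : ℝ × ℝ} (hx : x ∈ hl N) (hy : y ∈ hl N)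
    {z : ℤ × ℤ} (t : ℝ) (h0 : 0 ≤ t) (h1 : t ≤ 1)
    (e1 : (z.1 : ℝ) = (1 - t) * x.1 + t * y.1) (e2 : (z.2 : ℝ) = (1 - t) * x.2 + t * y.2) :
    z ∈ N := by
  apply hN
  have h := hl_convex N hx hy (a := 1 - t) (b := t) (by linarith) h0 (by ring)
  have e : rp z = (1 - t) • x + t • y := by
    ext <;> simp [rp, e1, e2]
  rw [e]
  exact h

end Pool.Agent.PLM
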