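import Pool.Agent.PLM.BFull
import Pool.Agent.PLM.BNum
import Pool.Agent.PLM.Def

set_option autoImplicit false

/-!
# PLM, part B: assembly (`partB`)
-/

namespace PLMB

open Finset Pool.Agent.PLM

variable {N : Finset (ℤ × ℤ)} {P : ℕ}

/-- all missing classes have a representative in `R` -/
theorem miss_card (hP : 0 < P) (R : Finset (ℤ × ℤ))
    (h : ∀ x y : ℤ, Mis N (P : ℤ) x y → ∃ k l : ℤ, (x + P * k, y + P * l) ∈ R) :
    P ^ 2 ≤ (cls P N).card + R.card := by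
  classical
  haveI : NeZero P := ⟨hP.ne'⟩
  have h1 : (Finset.univ : Finset (ZMod P × ZMod P)) ⊆ cls P N ∪ R.image (red P) := by
    intro c _
    by_cases hc : c ∈ cls P N
    · exact Finset.mem_union_left _ hc
    · apply Finset.mem_union_right
      obtain ⟨x, hx⟩ := ZMod.intCast_surjective c.1
      obtain ⟨y, hy⟩ := ZMod.intCast_surjective c.2
      have h2 : Mis N (P : ℤ) x y := by
        intro k l hkl
        apply hc
        rw [mem_cls]
        refine ⟨_, hkl, ?_⟩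
        ext
        · simp [red, hx]
        · simp [red, hy]
      obtain ⟨k, l, hkl⟩ := h x y h2
      refine Finset.mem_image.2 ⟨_, hkl, ?_⟩
      ext
      · simp [red, hx]
      · simp [red, hy]
  have h3 := Finset.card_le_card h1
  have h4 := Finset.card_union_le (cls P N) (R.image (red P))
  have h5 : (R.image (red P)).card ≤ R.card := Finset.card_image_le
  have h6 : (Finset.univ : Finset (ZMod P × ZMod P)).card = P ^ 2 := by
    rw [Finset.card_univ, Fintype.card_prod, ZMod.card, sq]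
  omega

/-- number of lines with `P + 1` points -/
theorem card_Ez (hN : LCon N) (hP : 0 < P) (hq : QInj P N) {z : ℤ × ℤ} (hz : z ≠ (0, 0)) (ht : ℤ × ℤ → ℤ)
    (hl : ∀ v w : ℤ × ℤ, ht v = ht w → ∃ t : ℤ, w = ad v z t) {lo hi : ℤ} (hlh : lo ≤ hi + 1)
    (h : ∀ v ∈ Ez N P z, lo ≤ ht v ∧ ht v ≤ hi) : ((Ez N P z).card : ℤ) ≤ hi - lo + 1 := by
  classical
  have hPz : (0 : ℤ) < P := by exact_mod_cast hP
  have h1 : Set.InjOn ht (Ez N (P : ℤ) z : Set (ℤ × ℤ)) := by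
    intro v hv w hw hvw
    rw [Finset.mem_coe, mem_Ez] at hv hw
    obtain ⟨t, rfl⟩ := hl v w hvw
    have h2 := no_long hN hPz hq hz (V := v) (s := 0) (t := t + P) (by rw [ad_zero]; exact hv.1)
      (by rw [← ad_ad]; exact hw.2)
    have h3 := no_long hN hPz hq hz (V := v) (s := t) (t := P) hw.1 hv.2
    have h4 : t = 0 := by omega
    rw [h4, ad_zero]
  have h2 : (Ez N (P : ℤ) z).card = ((Ez N (P : ℤ) z).image ht).card := (Finset.card_image_of_injOn h1).symm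
  have h3 : (Ez N (P : ℤ) z).image ht ⊆ Finset.Icc lo hi := by
    intro y hy
    obtain ⟨v, hv, rfl⟩ := Finset.mem_image.1 hy
    exact Finset.mem_Icc.2 (h v hv)
  have h4 := Finset.card_le_card h3
  rw [Int.card_Icc] at h4
  have h5 : (((hi + 1 - lo).toNat : ℕ) : ℤ) = hi + 1 - lo := Int.toNat_of_nonneg (by omega)
  have h6 : (((Ez N (P : ℤ) z).image ht).card : ℤ) ≤ hi + 1 - lo := by
    rw [← h5]
    exact_mod_cast h4
  rw [h2]
  linarith

private theorem line1 (v w : ℤ × ℤ) (h : v.2 = w.2) : ∃ t : ℤ, w = ad v (1, 0) t :=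
  ⟨w.1 - v.1, by ext <;> simp [ad, h]⟩

private theorem line2 (v w : ℤ × ℤ) (h : v.1 = w.1) : ∃ t : ℤ, w = ad v (0, 1) t :=
  ⟨w.2 - v.2, by ext <;> simp [ad, h]⟩

private theorem line3 (v w : ℤ × ℤ) (h : v.2 - v.1 = w.2 - w.1) : ∃ t : ℤ, w = ad v (1, 1) t :=
  ⟨w.1 - v.1, by
    ext
    · simp [ad]
    · simp only [ad]
      omega⟩

/-- row and column -/
theorem cross12 (hN : LCon N) (hP : 0 < P) (hq : QInj P N) (hD : Hexd P N) {a b : ℤ × ℤ} (ha : a ∈ Ez N P (1, 0))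
    (hb : b ∈ Ez N P (0, 1)) : (b.1, a.2) ∈ N := by
  have hPz : (0 : ℤ) < P := by exact_mod_cast hP
  rw [mem_Ez] at ha hb
  refine cross hN hPz hq hD (z := (1, 0)) (z' := (0, 1)) (V := (b.1, a.2)) (i := b.1 - a.1) (j := a.2 - b.2) ?_ ?_
    ?_ ?_ ?_ ?_
  · intro k m hk hm h
    simp only [Hex, Prod.mk.injEq] at h
    omega
  · intro k m hk hm h
    simp only [Prod.mk.injEq] at h
    omega
  · have : ad (b.1, a.2) (1, 0) (-(b.1 - a.1)) = a := by ext <;> simp [ad]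
    rw [this]
    exact ha.1
  · have : ad (b.1, a.2) (1, 0) ((P : ℤ) - (b.1 - a.1)) = ad a (1, 0) P := by
      ext
      · simp only [ad]
        ring
      · simp [ad]
    rw [this]
    exact ha.2
  · have : ad (b.1, a.2) (0, 1) (-(a.2 - b.2)) = b := by ext <;> simp [ad]
    rw [this]
    exact hb.1
  · have : ad (b.1, a.2) (0, 1) ((P : ℤ) - (a.2 - b.2)) = ad b (0, 1) P := by
      ext
      · simp [ad]
      · simp only [ad]
        ring
    rw [this]
    exact hb.2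

/-- row and diagonal -/
theorem cross13 (hN : LCon N) (hP : 0 < P) (hq : QInj P N) (hD : Hexd P N) {a b : ℤ × ℤ} (ha : a ∈ Ez N P (1, 0))
    (hb : b ∈ Ez N P (1, 1)) : (a.2 - (b.2 - b.1), a.2) ∈ N := by
  have hPz : (0 : ℤ) < P := by exact_mod_cast hP
  rw [mem_Ez] at ha hb
  refine cross hN hPz hq hD (z := (1, 0)) (z' := (-1, -1)) (V := (a.2 - (b.2 - b.1), a.2))
    (i := a.2 - (b.2 - b.1) - a.1) (j := b.1 - (a.2 - (b.2 - b.1)) + P) ?_ ?_ ?_ ?_ ?_ ?_
  · intro k m hk hm h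
    simp only [Hex, Prod.mk.injEq] at h
    omega
  · intro k m hk hm h
    simp only [Prod.mk.injEq] at h
    omega
  · have : ad (a.2 - (b.2 - b.1), a.2) (1, 0) (-(a.2 - (b.2 - b.1) - a.1)) = a := by ext <;> simp [ad]
    rw [this]
    exact ha.1
  · have : ad (a.2 - (b.2 - b.1), a.2) (1, 0) ((P : ℤ) - (a.2 - (b.2 - b.1) - a.1)) = ad a (1, 0) P := by
      ext
      · simp only [ad]
        ring
      · simp [ad]
    rw [this]
    exact ha.2
  · have : ad (a.2 - (b.2 - b.1), a.2) (-1, -1) (-(b.1 - (a.2 - (b.2 - b.1)) + P)) = ad b (1, 1) P := by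
      ext
      · simp only [ad]
        ring
      · simp only [ad]
        ring
    rw [this]
    exact hb.2
  · have : ad (a.2 - (b.2 - b.1), a.2) (-1, -1) ((P : ℤ) - (b.1 - (a.2 - (b.2 - b.1)) + P)) = b := by
      ext
      · simp only [ad]
        ring
      · simp only [ad]
        ring
    rw [this]
    exact hb.1

/-- column and diagonal -/
theorem cross23 (hN : LCon N) (hP : 0 < P) (hq : QInj P N) (hD : Hexd P N) {a b : ℤ × ℤ} (ha : a ∈ Ez N P (0, 1))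
    (hb : b ∈ Ez N P (1, 1)) : (a.1, a.1 + (b.2 - b.1)) ∈ N := by
  have hPz : (0 : ℤ) < P := by exact_mod_cast hP
  rw [mem_Ez] at ha hb
  refine cross hN hPz hq hD (z := (0, 1)) (z' := (-1, -1)) (V := (a.1, a.1 + (b.2 - b.1)))
    (i := a.1 + (b.2 - b.1) - a.2) (j := b.1 - a.1 + P) ?_ ?_ ?_ ?_ ?_ ?_
  · intro k m hk hm h
    simp only [Hex, Prod.mk.injEq] at h
    omega
  · intro k m hk hm h
    simp only [Prod.mk.injEq] at h
    omega
  · have : ad (a.1, a.1 + (b.2 - b.1)) (0, 1) (-(a.1 + (b.2 - b.1) - a.2)) = a := by ext <;> simp [ad]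
    rw [this]
    exact ha.1
  · have : ad (a.1, a.1 + (b.2 - b.1)) (0, 1) ((P : ℤ) - (a.1 + (b.2 - b.1) - a.2)) = ad a (0, 1) P := by
      ext
      · simp [ad]
      · simp only [ad]
        ring
    rw [this]
    exact ha.2
  · have : ad (a.1, a.1 + (b.2 - b.1)) (-1, -1) (-(b.1 - a.1 + P)) = ad b (1, 1) P := by
      ext
      · simp only [ad]
        ring
      · simp only [ad]
        ring
    rw [this]
    exact hb.2
  · have : ad (a.1, a.1 + (b.2 - b.1)) (-1, -1) ((P : ℤ) - (b.1 - a.1 + P)) = b := by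
      ext
      · simp only [ad]
        ring
      · simp only [ad]
        ring
    rw [this]
    exact hb.1

private theorem rep' {p : ℤ} (hp : 0 < p) (x t : ℤ) : ∃ k : ℤ, t ≤ x + p * k ∧ x + p * k < t + p := by
  refine ⟨-((x - t) / p), ?_⟩
  have h1 := Int.mul_ediv_add_emod (x - t) p
  have h2 := Int.emod_nonneg (x - t) hp.ne'
  have h3 := Int.emod_lt_of_pos (x - t) hp
  have h4 : p * -((x - t) / p) = -(p * ((x - t) / p)) := by ring
  rw [h4]
  omega

/-- product of two intervals -/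
private theorem card_box (lo hi lo' hi' : ℤ) (h : lo ≤ hi + 1) (h' : lo' ≤ hi' + 1) :
    (((Finset.Icc lo hi ×ˢ Finset.Icc lo' hi').card : ℕ) : ℤ) = (hi + 1 - lo) * (hi' + 1 - lo') := by
  rw [Finset.card_product, Int.card_Icc, Int.card_Icc]
  push_cast
  rw [Int.toNat_of_nonneg (by omega), Int.toNat_of_nonneg (by omega)]

/-- one family of lines: `P * f ≤ c` -/
theorem single (hN : LCon N) (hP : 0 < P) (hq : QInj P N) {x₀ y₀ : ℤ} (hM : Mis N (P : ℤ) x₀ y₀) :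
    (P : ℤ) * (Ez N P (1, 0)).card ≤ (cls P N).card ∧ (P : ℤ) * (Ez N P (0, 1)).card ≤ (cls P N).card ∧
      (P : ℤ) * (Ez N P (1, 1)).card ≤ (cls P N).card := by
  classical
  have hPz : (0 : ℤ) < P := by exact_mod_cast hP
  refine ⟨?_, ?_, ?_⟩
  · rcases (Ez N (P : ℤ) (1, 0)).eq_empty_or_nonempty with h | h
    · rw [h]
      simp
    · obtain ⟨a, ha, ha'⟩ := Finset.exists_min_image (Ez N (P : ℤ) (1, 0)) (fun v => v.2) h
      obtain ⟨b, hb, hb'⟩ := Finset.exists_max_image (Ez N (P : ℤ) (1, 0)) (fun v => v.2) h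
      have hrep : ∀ x y : ℤ, Mis N (P : ℤ) x y → ∃ l : ℤ, b.2 < y + P * l ∧ y + P * l < a.2 + P := by
        intro x y hxy
        obtain ⟨l, hl1, hl2⟩ := rep' hPz y a.2
        refine ⟨l, ?_, hl2⟩
        by_contra hc
        obtain ⟨m, hm⟩ := fullRow hN hPz ha hb hl1 (not_lt.1 hc) x
        exact hxy m l hm
      obtain ⟨l₀, hl1, hl2⟩ := hrep x₀ y₀ hM
      have h1 := miss_card hP (Finset.Icc 0 ((P : ℤ) - 1) ×ˢ Finset.Icc (b.2 + 1) (a.2 + P - 1)) (N := N) (by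
        intro x y hxy
        obtain ⟨l, hl⟩ := hrep x y hxy
        obtain ⟨k, hk⟩ := rep' hPz x 0
        refine ⟨k, l, Finset.mem_product.2 ⟨Finset.mem_Icc.2 ⟨?_, ?_⟩, Finset.mem_Icc.2 ⟨?_, ?_⟩⟩⟩ <;>
          dsimp only <;> omega)
      have h2 := card_box 0 ((P : ℤ) - 1) (b.2 + 1) (a.2 + P - 1) (by omega) (by omega)
      have h3 := card_Ez hN hP hq (z := (1, 0)) (by simp) (fun v => v.2) line1 (lo := a.2) (hi := b.2)
        (by have := ha' b hb; omega) (fun v hv => ⟨ha' v hv, hb' v hv⟩)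
      have h4 : ((P : ℤ)) ^ 2 ≤ (cls P N).card + (P : ℤ) * (a.2 + P - 1 - b.2) := by
        have h5 : ((P : ℤ)) ^ 2 ≤ (cls P N).card +
          (((Finset.Icc 0 ((P : ℤ) - 1) ×ˢ Finset.Icc (b.2 + 1) (a.2 + P - 1)).card : ℕ) : ℤ) := by exact_mod_cast h1
        rw [h2] at h5
        have e : ((P : ℤ) - 1 + 1 - 0) * (a.2 + P - 1 + 1 - (b.2 + 1)) = (P : ℤ) * (a.2 + P - 1 - b.2) := by ring
        rw [e] at h5
        exact h5
      have h5 : (P : ℤ) * (Ez N P (1, 0)).card ≤ (P : ℤ) * (b.2 - a.2 + 1) := mul_le_mul_of_nonneg_left h3 hPz.le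
      nlinarith
  · rcases (Ez N (P : ℤ) (0, 1)).eq_empty_or_nonempty with h | h
    · rw [h]
      simp
    · obtain ⟨a, ha, ha'⟩ := Finset.exists_min_image (Ez N (P : ℤ) (0, 1)) (fun v => v.1) h
      obtain ⟨b, hb, hb'⟩ := Finset.exists_max_image (Ez N (P : ℤ) (0, 1)) (fun v => v.1) h
      have hrep : ∀ x y : ℤ, Mis N (P : ℤ) x y → ∃ l : ℤ, b.1 < x + P * l ∧ x + P * l < a.1 + P := by
        intro x y hxy
        obtain ⟨l, hl1, hl2⟩ := rep' hPz x a.1
        refine ⟨l, ?_, hl2⟩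
        by_contra hc
        obtain ⟨m, hm⟩ := fullCol hN hPz ha hb hl1 (not_lt.1 hc) y
        exact hxy l m hm
      obtain ⟨l₀, hl1, hl2⟩ := hrep x₀ y₀ hM
      have h1 := miss_card hP (Finset.Icc (b.1 + 1) (a.1 + P - 1) ×ˢ Finset.Icc 0 ((P : ℤ) - 1)) (N := N) (by
        intro x y hxy
        obtain ⟨l, hl⟩ := hrep x y hxy
        obtain ⟨k, hk⟩ := rep' hPz y 0
        refine ⟨l, k, Finset.mem_product.2 ⟨Finset.mem_Icc.2 ⟨?_, ?_⟩, Finset.mem_Icc.2 ⟨?_, ?_⟩⟩⟩ <;>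
          dsimp only <;> omega)
      have h2 := card_box (b.1 + 1) (a.1 + P - 1) 0 ((P : ℤ) - 1) (by omega) (by omega)
      have h3 := card_Ez hN hP hq (z := (0, 1)) (by simp) (fun v => v.1) line2 (lo := a.1) (hi := b.1)
        (by have := ha' b hb; omega) (fun v hv => ⟨ha' v hv, hb' v hv⟩)
      have h4 : ((P : ℤ)) ^ 2 ≤ (cls P N).card + (P : ℤ) * (a.1 + P - 1 - b.1) := by
        have h5 : ((P : ℤ)) ^ 2 ≤ (cls P N).card +
          (((Finset.Icc (b.1 + 1) (a.1 + P - 1) ×ˢ Finset.Icc 0 ((P : ℤ) - 1)).card : ℕ) : ℤ) := by exact_mod_cast h1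
        rw [h2] at h5
        have e : (a.1 + P - 1 + 1 - (b.1 + 1)) * ((P : ℤ) - 1 + 1 - 0) = (P : ℤ) * (a.1 + P - 1 - b.1) := by ring
        rw [e] at h5
        exact h5
      have h5 : (P : ℤ) * (Ez N P (0, 1)).card ≤ (P : ℤ) * (b.1 - a.1 + 1) := mul_le_mul_of_nonneg_left h3 hPz.le
      nlinarith
  · rcases (Ez N (P : ℤ) (1, 1)).eq_empty_or_nonempty with h | h
    · rw [h]
      simp
    · obtain ⟨a, ha, ha'⟩ := Finset.exists_min_image (Ez N (P : ℤ) (1, 1)) (fun v => v.2 - v.1) h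
      obtain ⟨b, hb, hb'⟩ := Finset.exists_max_image (Ez N (P : ℤ) (1, 1)) (fun v => v.2 - v.1) h
      have hrep : ∀ x y : ℤ, Mis N (P : ℤ) x y →
          ∃ l : ℤ, b.2 - b.1 < y + P * l - x ∧ y + P * l - x < a.2 - a.1 + P := by
        intro x y hxy
        obtain ⟨l, hl1, hl2⟩ := rep' hPz (y - x) (a.2 - a.1)
        refine ⟨l, ?_, by omega⟩
        by_contra hc
        obtain ⟨m, hm⟩ := fullDia hN hPz ha hb (x := x) (y := y + P * l) (by omega) (not_lt.1 hc)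
        have e : y + P * l + P * m = y + P * (l + m) := by ring
        rw [e] at hm
        exact hxy m (l + m) hm
      obtain ⟨l₀, hl1, hl2⟩ := hrep x₀ y₀ hM
      have h1 := miss_card hP ((Finset.Icc 0 ((P : ℤ) - 1) ×ˢ
        Finset.Icc (b.2 - b.1 + 1) (a.2 - a.1 + P - 1)).image (fun u => (u.1, u.1 + u.2))) (N := N) (by
        intro x y hxy
        obtain ⟨k, hk⟩ := rep' hPz x 0
        have hxy' : Mis N (P : ℤ) (x + P * k) (y + P * 0) := hxy.shift k 0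
        obtain ⟨l, hl⟩ := hrep _ _ hxy'
        refine ⟨k, l, Finset.mem_image.2 ⟨(x + P * k, y + P * l - (x + P * k)), Finset.mem_product.2
          ⟨Finset.mem_Icc.2 ⟨?_, ?_⟩, Finset.mem_Icc.2 ⟨?_, ?_⟩⟩, ?_⟩⟩
        · dsimp only
          omega
        · dsimp only
          omega
        · dsimp only
          omega
        · dsimp only
          omega
        · ext
          · rfl
          · dsimp only
            ring)
      have h2 := card_box 0 ((P : ℤ) - 1) (b.2 - b.1 + 1) (a.2 - a.1 + P - 1) (by omega) (by omega)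
      have h2' : ((Finset.Icc 0 ((P : ℤ) - 1) ×ˢ
        Finset.Icc (b.2 - b.1 + 1) (a.2 - a.1 + P - 1)).image (fun u : ℤ × ℤ => (u.1, u.1 + u.2))).card ≤
        (Finset.Icc 0 ((P : ℤ) - 1) ×ˢ Finset.Icc (b.2 - b.1 + 1) (a.2 - a.1 + P - 1)).card :=
        Finset.card_image_le
      have h3 := card_Ez hN hP hq (z := (1, 1)) (by simp) (fun v => v.2 - v.1) line3 (lo := a.2 - a.1)
        (hi := b.2 - b.1) (by have := ha' b hb; omega) (fun v hv => ⟨ha' v hv, hb' v hv⟩)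
      have h4 : ((P : ℤ)) ^ 2 ≤ (cls P N).card + (P : ℤ) * (a.2 - a.1 + P - 1 - (b.2 - b.1)) := by
        have h5 : ((P : ℤ)) ^ 2 ≤ (cls P N).card +
          (((Finset.Icc 0 ((P : ℤ) - 1) ×ˢ Finset.Icc (b.2 - b.1 + 1) (a.2 - a.1 + P - 1)).card : ℕ) : ℤ) := by
          exact_mod_cast h1.trans (Nat.add_le_add_left h2' _)
        rw [h2] at h5
        have e : ((P : ℤ) - 1 + 1 - 0) * (a.2 - a.1 + P - 1 + 1 - (b.2 - b.1 + 1)) =
          (P : ℤ) * (a.2 - a.1 + P - 1 - (b.2 - b.1)) := by ring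
        rw [e] at h5
        exact h5
      have h5 : (P : ℤ) * (Ez N P (1, 1)).card ≤ (P : ℤ) * (b.2 - b.1 - (a.2 - a.1) + 1) :=
        mul_le_mul_of_nonneg_left h3 hPz.le
      nlinarith

theorem cl_eq_cls : cl P N = cls P N := by
  classical
  ext c
  simp only [cl, mem_cls, Finset.mem_image, red]

/-- all three families of lines -/
theorem triple (hN : LCon N) (hP : 0 < P) (hq : QInj P N) (hD : Hexd P N) {x₀ y₀ : ℤ} (hM : Mis N (P : ℤ) x₀ y₀)
    (n1 : (Ez N P (1, 0)).Nonempty) (n2 : (Ez N P (0, 1)).Nonempty) (n3 : (Ez N P (1, 1)).Nonempty) :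
    (P : ℤ) ^ 2 * N.card ≤ ((P : ℤ) + 1) ^ 2 * (cls P N).card := by
  classical
  have hPz : (0 : ℤ) < P := by exact_mod_cast hP
  obtain ⟨a1, ha1, ha1'⟩ := Finset.exists_min_image (Ez N (P : ℤ) (1, 0)) (fun v => v.2) n1
  obtain ⟨b1, hb1, hb1'⟩ := Finset.exists_max_image (Ez N (P : ℤ) (1, 0)) (fun v => v.2) n1
  obtain ⟨a2, ha2, ha2'⟩ := Finset.exists_min_image (Ez N (P : ℤ) (0, 1)) (fun v => v.1) n2
  obtain ⟨b2, hb2, hb2'⟩ := Finset.exists_max_image (Ez N (P : ℤ) (0, 1)) (fun v => v.1) n2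
  obtain ⟨a3, ha3, ha3'⟩ := Finset.exists_min_image (Ez N (P : ℤ) (1, 1)) (fun v => v.2 - v.1) n3
  obtain ⟨b3, hb3, hb3'⟩ := Finset.exists_max_image (Ez N (P : ℤ) (1, 1)) (fun v => v.2 - v.1) n3
  have f1 := card_Ez hN hP hq (z := (1, 0)) (by simp) (fun v => v.2) line1 (lo := a1.2) (hi := b1.2)
    (by have := ha1' b1 hb1; omega) (fun v hv => ⟨ha1' v hv, hb1' v hv⟩)
  have f2 := card_Ez hN hP hq (z := (0, 1)) (by simp) (fun v => v.1) line2 (lo := a2.1) (hi := b2.1)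
    (by have := ha2' b2 hb2; omega) (fun v hv => ⟨ha2' v hv, hb2' v hv⟩)
  have f3 := card_Ez hN hP hq (z := (1, 1)) (by simp) (fun v => v.2 - v.1) line3 (lo := a3.2 - a3.1)
    (hi := b3.2 - b3.1) (by have := ha3' b3 hb3; omega) (fun v hv => ⟨ha3' v hv, hb3' v hv⟩)
  have m1 : a1.2 ≤ b1.2 := ha1' b1 hb1
  have m2 : a2.1 ≤ b2.1 := ha2' b2 hb2
  have m3 : a3.2 - a3.1 ≤ b3.2 - b3.1 := ha3' b3 hb3
  -- crossing points
  have c12 := cross12 hN hP hq hD ha1 hb2
  have c13 := cross13 hN hP hq hD ha1 hb3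
  have c23 := cross23 hN hP hq hD hb2 hb3
  have d12 := cross12 hN hP hq hD hb1 ha2
  have d13 := cross13 hN hP hq hD hb1 ha3
  have d23 := cross23 hN hP hq hD ha2 ha3
  set sA : ℤ := a1.2 - b2.1 - (b3.2 - b3.1) + P - 2 with hsA
  set sB : ℤ := a2.1 + (a3.2 - a3.1) - b1.2 + P - 2 with hsB
  have hA : -2 ≤ sA := by
    have h := no_long hN hPz hq (V := (b2.1, 0)) (z := (0, 1)) (by simp) (s := a1.2) (t := b2.1 + (b3.2 - b3.1))
      (by
        have e : ad (b2.1, 0) (0, 1) a1.2 = (b2.1, a1.2) := by ext <;> simp [ad]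
        rw [e]
        exact c12)
      (by
        have e : ad (b2.1, 0) (0, 1) (b2.1 + (b3.2 - b3.1)) = (b2.1, b2.1 + (b3.2 - b3.1)) := by
          ext <;> simp [ad]
        rw [e]
        exact c23)
    omega
  have hB : -2 ≤ sB := by
    have h := no_long hN hPz hq (V := (a2.1, 0)) (z := (0, 1)) (by simp) (s := a2.1 + (a3.2 - a3.1)) (t := b1.2)
      (by
        have e : ad (a2.1, 0) (0, 1) (a2.1 + (a3.2 - a3.1)) = (a2.1, a2.1 + (a3.2 - a3.1)) := by
          ext <;> simp [ad]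
        rw [e]
        exact d23)
      (by
        have e : ad (a2.1, 0) (0, 1) b1.2 = (a2.1, b1.2) := by ext <;> simp [ad]
        rw [e]
        exact d12)
    omega
  -- double coincidences
  have hA2 : sA = -2 → (1 : ℤ) ≤ ((N.filter (fun v => ad v (1, 0) (P : ℤ) ∈ N ∧ ad v (1, 1) (P : ℤ) ∈ N)).card : ℤ) := by
    intro h
    have h1 : (a1.2 - (b3.2 - b3.1), a1.2) ∈
        N.filter (fun v => ad v (1, 0) (P : ℤ) ∈ N ∧ ad v (1, 1) (P : ℤ) ∈ N) := by
      refine Finset.mem_filter.2 ⟨c13, ?_, ?_⟩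
      · have e : ad (a1.2 - (b3.2 - b3.1), a1.2) (1, 0) (P : ℤ) = (b2.1, a1.2) := by
          ext
          · simp only [ad]
            omega
          · simp [ad]
        rw [e]
        exact c12
      · have e : ad (a1.2 - (b3.2 - b3.1), a1.2) (1, 1) (P : ℤ) = (b2.1, b2.1 + (b3.2 - b3.1)) := by
          ext
          · simp only [ad]
            omega
          · simp only [ad]
            omega
        rw [e]
        exact c23
    have h2 := Finset.card_pos.2 ⟨_, h1⟩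
    exact_mod_cast h2
  have hB2 : sB = -2 → (1 : ℤ) ≤ ((N.filter (fun v => ad v (0, 1) (P : ℤ) ∈ N ∧ ad v (1, 1) (P : ℤ) ∈ N)).card : ℤ) := by
    intro h
    have h1 : (a2.1, a2.1 + (a3.2 - a3.1)) ∈
        N.filter (fun v => ad v (0, 1) (P : ℤ) ∈ N ∧ ad v (1, 1) (P : ℤ) ∈ N) := by
      refine Finset.mem_filter.2 ⟨d23, ?_, ?_⟩
      · have e : ad (a2.1, a2.1 + (a3.2 - a3.1)) (0, 1) (P : ℤ) = (a2.1, b1.2) := by
          ext
          · simp [ad]
          · simp only [ad]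
            omega
        rw [e]
        exact d12
      · have e : ad (a2.1, a2.1 + (a3.2 - a3.1)) (1, 1) (P : ℤ) = (b1.2 - (a3.2 - a3.1), b1.2) := by
          ext
          · simp only [ad]
            omega
          · simp only [ad]
            omega
        rw [e]
        exact d13
    have h2 := Finset.card_pos.2 ⟨_, h1⟩
    exact_mod_cast h2
  -- the missing classes
  obtain ⟨k₀, l₀, hk1, hk2, hk3, hk4⟩ := misRC hN hPz ha1 hb1 ha2 hb2 hM
  obtain ⟨k₁, l₁, hl1, hl2, hl3, hl4⟩ := misRD hN hPz ha1 hb1 ha3 hb3 hM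
  have h12 := miss_card hP (Finset.Icc (b2.1 + 1) (a2.1 + P - 1) ×ˢ Finset.Icc (b1.2 + 1) (a1.2 + P - 1)) (N := N) (by
    intro x y hxy
    obtain ⟨k, l, h1, h2, h3, h4⟩ := misRC hN hPz ha1 hb1 ha2 hb2 hxy
    refine ⟨k, l, Finset.mem_product.2 ⟨Finset.mem_Icc.2 ⟨?_, ?_⟩, Finset.mem_Icc.2 ⟨?_, ?_⟩⟩⟩ <;>
      dsimp only <;> omega)
  have h12' := card_box (b2.1 + 1) (a2.1 + P - 1) (b1.2 + 1) (a1.2 + P - 1) (by omega) (by omega)
  have h13 := miss_card hP ((Finset.Icc (b1.2 + 1) (a1.2 + P - 1) ×ˢ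
    Finset.Icc (b3.2 - b3.1 + 1) (a3.2 - a3.1 + P - 1)).image (fun u => (u.1 - u.2, u.1))) (N := N) (by
    intro x y hxy
    obtain ⟨k, l, h1, h2, h3, h4⟩ := misRD hN hPz ha1 hb1 ha3 hb3 hxy
    refine ⟨k, l, Finset.mem_image.2 ⟨(y + P * l, y + P * l - (x + P * k)), Finset.mem_product.2
      ⟨Finset.mem_Icc.2 ⟨?_, ?_⟩, Finset.mem_Icc.2 ⟨?_, ?_⟩⟩, ?_⟩⟩
    · dsimp only
      omega
    · dsimp only
      omega
    · dsimp only
      omega
    · dsimp only
      omega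
    · ext
      · dsimp only
        ring
      · rfl)
  have h13' := card_box (b1.2 + 1) (a1.2 + P - 1) (b3.2 - b3.1 + 1) (a3.2 - a3.1 + P - 1) (by omega) (by omega)
  have h13'' : ((Finset.Icc (b1.2 + 1) (a1.2 + P - 1) ×ˢ
    Finset.Icc (b3.2 - b3.1 + 1) (a3.2 - a3.1 + P - 1)).image (fun u : ℤ × ℤ => (u.1 - u.2, u.1))).card ≤
    (Finset.Icc (b1.2 + 1) (a1.2 + P - 1) ×ˢ Finset.Icc (b3.2 - b3.1 + 1) (a3.2 - a3.1 + P - 1)).card :=
    Finset.card_image_le
  have h23 := miss_card hP ((Finset.Icc (b2.1 + 1) (a2.1 + P - 1) ×ˢ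
    Finset.Icc (b3.2 - b3.1 + 1) (a3.2 - a3.1 + P - 1)).image (fun u => (u.1, u.1 + u.2))) (N := N) (by
    intro x y hxy
    obtain ⟨k, l, h1, h2, h3, h4⟩ := misCD hN hPz ha2 hb2 ha3 hb3 hxy
    refine ⟨k, l, Finset.mem_image.2 ⟨(x + P * k, y + P * l - (x + P * k)), Finset.mem_product.2
      ⟨Finset.mem_Icc.2 ⟨?_, ?_⟩, Finset.mem_Icc.2 ⟨?_, ?_⟩⟩, ?_⟩⟩
    · dsimp only
      omega
    · dsimp only
      omega
    · dsimp only
      omega
    · dsimp only
      omega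
    · ext
      · rfl
      · dsimp only
        ring)
  have h23' := card_box (b2.1 + 1) (a2.1 + P - 1) (b3.2 - b3.1 + 1) (a3.2 - a3.1 + P - 1) (by omega) (by omega)
  have h23'' : ((Finset.Icc (b2.1 + 1) (a2.1 + P - 1) ×ˢ
    Finset.Icc (b3.2 - b3.1 + 1) (a3.2 - a3.1 + P - 1)).image (fun u : ℤ × ℤ => (u.1, u.1 + u.2))).card ≤
    (Finset.Icc (b2.1 + 1) (a2.1 + P - 1) ×ˢ Finset.Icc (b3.2 - b3.1 + 1) (a3.2 - a3.1 + P - 1)).card :=
    Finset.card_image_le
  have hT := miss_card hP ((Tri sA.toNat).image (fun i => ((b2.1 + 1 + (i.1 : ℤ), a1.2 + P - 1 - (i.2 : ℤ)) : ℤ × ℤ)) ∪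
    (Tri sB.toNat).image (fun i => ((a2.1 + P - 1 - (i.1 : ℤ), b1.2 + 1 + (i.2 : ℤ)) : ℤ × ℤ))) (N := N) (by
    intro x y hxy
    obtain ⟨k, l, h | h⟩ := misT hN hPz ha1 hb1 ha2 hb2 ha3 hb3 hxy
    · refine ⟨k, l, Finset.mem_union_left _ (Finset.mem_image.2
        ⟨((x + P * k - b2.1 - 1).toNat, (a1.2 + P - 1 - (y + P * l)).toNat), mem_Tri.2 ?_, ?_⟩)⟩
      · dsimp only
        omega
      · ext
        · dsimp only
          omega
        · dsimp only
          omega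
    · refine ⟨k, l, Finset.mem_union_right _ (Finset.mem_image.2
        ⟨((a2.1 + P - 1 - (x + P * k)).toNat, (y + P * l - b1.2 - 1).toNat), mem_Tri.2 ?_, ?_⟩)⟩
      · dsimp only
        omega
      · ext
        · dsimp only
          omega
        · dsimp only
          omega)
  have hT' := Finset.card_union_le
    ((Tri sA.toNat).image (fun i => ((b2.1 + 1 + (i.1 : ℤ), a1.2 + P - 1 - (i.2 : ℤ)) : ℤ × ℤ)))
    ((Tri sB.toNat).image (fun i => ((a2.1 + P - 1 - (i.1 : ℤ), b1.2 + 1 + (i.2 : ℤ)) : ℤ × ℤ)))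
  have hT1 : ((Tri sA.toNat).image (fun i => ((b2.1 + 1 + (i.1 : ℤ), a1.2 + P - 1 - (i.2 : ℤ)) : ℤ × ℤ))).card ≤
    (Tri sA.toNat).card := Finset.card_image_le
  have hT2 : ((Tri sB.toNat).image (fun i => ((a2.1 + P - 1 - (i.1 : ℤ), b1.2 + 1 + (i.2 : ℤ)) : ℤ × ℤ))).card ≤
    (Tri sB.toNat).card := Finset.card_image_le
  have tA := card_Tri_int sA hA
  have tB := card_Tri_int sB hB
  have hcnt := cnt hP hD
  rw [cl_eq_cls] at hcnt
  have hfull : ((cls P N).card : ℤ) ≤ (P : ℤ) ^ 2 := by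
    haveI : NeZero P := ⟨hP.ne'⟩
    have h6 := Finset.card_le_univ (cls P N)
    rw [Fintype.card_prod, ZMod.card] at h6
    have h7 : (cls P N).card ≤ P ^ 2 := by rw [sq]; exact h6
    exact_mod_cast h7
  refine final (P := (P : ℤ)) (c := ((cls P N).card : ℤ)) (M := (P : ℤ) ^ 2 - (cls P N).card) (n := (N.card : ℤ))
    (e1 := ((N.filter (fun v => ad v (1, 0) (P : ℤ) ∈ N ∧ ad v (1, 1) (P : ℤ) ∈ N)).card : ℤ))
    (e2 := ((N.filter (fun v => ad v (0, 1) (P : ℤ) ∈ N ∧ ad v (1, 1) (P : ℤ) ∈ N)).card : ℤ))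
    (f1 := ((Ez N (P : ℤ) (1, 0)).card : ℤ)) (f2 := ((Ez N (P : ℤ) (0, 1)).card : ℤ))
    (f3 := ((Ez N (P : ℤ) (1, 1)).card : ℤ)) (F1 := b1.2 - a1.2 + 1) (F2 := b2.1 - a2.1 + 1)
    (F3 := b3.2 - b3.1 - (a3.2 - a3.1) + 1) (sA := sA) (sB := sB) (TA := ((Tri sA.toNat).card : ℤ))
    (TB := ((Tri sB.toNat).card : ℤ)) (by omega) (by linarith) (by ring) (by exact_mod_cast hcnt) f1 f2 f3
    (by omega) (by omega) (by omega) (by rw [hsA, hsB]; ring) hA hB (by positivity) (by positivity) hA2 hB2 ?_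
    tA.1 tB.1 tA.2 tB.2 ?_ ?_ ?_
  · have h6 : (P : ℤ) ^ 2 ≤ (cls P N).card + (((Tri sA.toNat).card : ℤ) + (Tri sB.toNat).card) := by
      exact_mod_cast hT.trans (Nat.add_le_add_left (hT'.trans (Nat.add_le_add hT1 hT2)) _)
    linarith
  · have h6 : (P : ℤ) ^ 2 ≤ (cls P N).card +
      (((Finset.Icc (b2.1 + 1) (a2.1 + P - 1) ×ˢ Finset.Icc (b1.2 + 1) (a1.2 + P - 1)).card : ℕ) : ℤ) := by
      exact_mod_cast h12
    rw [h12'] at h6
    nlinarith
  · have h6 : (P : ℤ) ^ 2 ≤ (cls P N).card +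
      (((Finset.Icc (b1.2 + 1) (a1.2 + P - 1) ×ˢ
        Finset.Icc (b3.2 - b3.1 + 1) (a3.2 - a3.1 + P - 1)).card : ℕ) : ℤ) := by
      exact_mod_cast h13.trans (Nat.add_le_add_left h13'' _)
    rw [h13'] at h6
    nlinarith
  · have h6 : (P : ℤ) ^ 2 ≤ (cls P N).card +
      (((Finset.Icc (b2.1 + 1) (a2.1 + P - 1) ×ˢ
        Finset.Icc (b3.2 - b3.1 + 1) (a3.2 - a3.1 + P - 1)).card : ℕ) : ℤ) := by
      exact_mod_cast h23.trans (Nat.add_le_add_left h23'' _)
    rw [h23'] at h6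
    nlinarith

/-- the counting part -/
theorem partB : PartB := by
  classical
  intro P N hP hLC hQI hDir
  have hPz : (0 : ℤ) < P := by exact_mod_cast hP
  have hN : LCon N := hLC
  have hq : QInj (P : ℤ) N := by
    intro v hv w hw h1 h2
    apply hQI v hv w hw
    obtain ⟨a, ha⟩ := h1
    obtain ⟨b, hb⟩ := h2
    refine red_eq_iff.2 ⟨-a, -b, ?_, ?_⟩
    · push_cast
      linarith
    · push_cast
      linarith
  have hD : Hexd (P : ℤ) N := by
    intro v hv z hz hz0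
    have h := hDir v hv z.1 z.2 hz
    have hz0' : ¬ (z.1 = 0 ∧ z.2 = 0) := fun h => hz0 (Prod.ext h.1 h.2)
    simp only [Hex, Prod.ext_iff]
    tauto
  suffices h : (P : ℤ) ^ 2 * N.card ≤ ((P : ℤ) + 1) ^ 2 * (cls P N).card by exact_mod_cast h
  by_cases hM : ∃ x₀ y₀ : ℤ, Mis N (P : ℤ) x₀ y₀
  · obtain ⟨x₀, y₀, hM⟩ := hM
    by_cases h0 : (Ez N (P : ℤ) (1, 0)).Nonempty ∧ (Ez N (P : ℤ) (0, 1)).Nonempty ∧ (Ez N (P : ℤ) (1, 1)).Nonempty
    · exact triple hN hP hq hD hM h0.1 h0.2.1 h0.2.2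
    · have hs := single hN hP hq hM
      have hcnt := cnt hP hD
      rw [cl_eq_cls] at hcnt
      refine final2 (f1 := ((Ez N (P : ℤ) (1, 0)).card : ℤ)) (f2 := ((Ez N (P : ℤ) (0, 1)).card : ℤ))
        (f3 := ((Ez N (P : ℤ) (1, 1)).card : ℤ)) (by omega) (by positivity) ?_ hs.1 hs.2.1 hs.2.2 ?_
      · have h1 : (N.card : ℤ) + ((N.filter (fun v => ad v (1, 0) (P : ℤ) ∈ N ∧ ad v (1, 1) (P : ℤ) ∈ N)).card +
          (N.filter (fun v => ad v (0, 1) (P : ℤ) ∈ N ∧ ad v (1, 1) (P : ℤ) ∈ N)).card) ≤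
          (cls P N).card + ((Ez N (P : ℤ) (1, 0)).card + (Ez N (P : ℤ) (0, 1)).card + (Ez N (P : ℤ) (1, 1)).card) := by
          exact_mod_cast hcnt
        have h2 : (0 : ℤ) ≤ ((N.filter (fun v => ad v (1, 0) (P : ℤ) ∈ N ∧ ad v (1, 1) (P : ℤ) ∈ N)).card : ℤ) +
          (N.filter (fun v => ad v (0, 1) (P : ℤ) ∈ N ∧ ad v (1, 1) (P : ℤ) ∈ N)).card := by positivity
        linarith
      · rw [not_and_or, not_and_or, Finset.not_nonempty_iff_eq_empty, Finset.not_nonempty_iff_eq_empty,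
          Finset.not_nonempty_iff_eq_empty] at h0
        rcases h0 with h | h | h
        · left
          rw [h]
          simp
        · right
          left
          rw [h]
          simp
        · right
          right
          rw [h]
          simp
  · -- everything is hit
    have h1 := miss_card hP (∅ : Finset (ℤ × ℤ)) (N := N) (fun x y hxy => absurd ⟨x, y, hxy⟩ hM)
    rw [Finset.card_empty, add_zero] at h1
    haveI : NeZero (P + 1) := ⟨Nat.succ_ne_zero P⟩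
    have h2 : N.card ≤ (P + 1) ^ 2 := by
      have h3 : N.card = (N.image (red (P + 1))).card :=
        (Finset.card_image_of_injOn fun v hv w hw hvw => hQI v hv w hw hvw).symm
      rw [h3]
      have h4 := Finset.card_le_univ (N.image (red (P + 1)))
      rw [Fintype.card_prod, ZMod.card] at h4
      rw [sq]
      exact h4
    have h3 : P ^ 2 * N.card ≤ (P + 1) ^ 2 * (cls P N).card := by
      calc P ^ 2 * N.card ≤ (cls P N).card * (P + 1) ^ 2 := Nat.mul_le_mul h1 h2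
        _ = (P + 1) ^ 2 * (cls P N).card := Nat.mul_comm _ _
    exact_mod_cast h3

end PLMB
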