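import Pool.Agent.PLM.Def

/-!
The longest chord lemma and the reduction to `q`-injective sets.
-/

namespace Pool.Agent.PLM

theorem hl_compact (N : Finset (ℤ × ℤ)) : IsCompact (hl N) :=
  Set.Finite.isCompact_convexHull (𝕜 := ℝ) ((Finset.finite_toSet N).image rp)

theorem rp_inj : Function.Injective rp := by
  intro v w h
  have h1 := congrArg Prod.fst h
  have h2 := congrArg Prod.snd h
  simp only [rp, Int.cast_inj] at h1 h2
  exact Prod.ext h1 h2

/-- a point which is not extreme is the midpoint of a nontrivial segment -/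
theorem not_ext {K : Set (ℝ × ℝ)} (hK : Convex ℝ K) {x : ℝ × ℝ} (hx : x ∈ K)
    (h : x ∉ K.extremePoints ℝ) : ∃ u : ℝ × ℝ, u ≠ 0 ∧ x + u ∈ K ∧ x - u ∈ K := by
  rw [mem_extremePoints] at h
  push Not at h
  obtain ⟨x1, h1, x2, h2, hseg, hne⟩ := h hx
  obtain ⟨a, b, ha, hb, hab, e⟩ := hseg
  have hne' : x1 ≠ x2 := by
    rintro rfl
    have : x1 = x := by rw [← e, ← add_smul, hab, one_smul]
    exact hne this this
  set m : ℝ := min a b with hm
  have hm0 : 0 < m := lt_min ha hb
  have hma : m ≤ a := min_le_left _ _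
  have hmb : m ≤ b := min_le_right _ _
  refine ⟨m • (x1 - x2), ?_, ?_, ?_⟩
  · exact smul_ne_zero hm0.ne' (sub_ne_zero.2 hne')
  · have hc := hK h1 h2 (a := a + m) (b := b - m) (by linarith) (by linarith) (by linarith)
    have : x + m • (x1 - x2) = (a + m) • x1 + (b - m) • x2 := by
      rw [← e]
      module
    rw [this]
    exact hc
  · have hc := hK h1 h2 (a := a - m) (b := b + m) (by linarith) (by linarith) (by linarith)
    have : x - m • (x1 - x2) = (a - m) • x1 + (b + m) • x2 := by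
      rw [← e]
      module
    rw [this]
    exact hc

/-- scaling a symmetric perturbation -/
theorem pert {K : Set (ℝ × ℝ)} (hK : Convex ℝ K) {x u : ℝ × ℝ} (h1 : x + u ∈ K)
    (h2 : x - u ∈ K) {t : ℝ} (ht : |t| ≤ 1) : x + t • u ∈ K := by
  obtain ⟨ht1, ht2⟩ := abs_le.1 ht
  have hc := hK h1 h2 (a := (1 + t) / 2) (b := (1 - t) / 2) (by linarith) (by linarith) (by ring)
  have : x + t • u = ((1 + t) / 2) • (x + u) + ((1 - t) / 2) • (x - u) := by module
  rw [this]
  exact hc

/-- a longest chord in direction `d` has an extreme point as an end point -/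
theorem longest {K : Set (ℝ × ℝ)} (hK : Convex ℝ K) (hc : IsCompact K) (d : ℝ × ℝ) (hd : d ≠ 0)
    (x0 : ℝ × ℝ) (hx0 : x0 ∈ K) (hy0 : x0 + d ∈ K) :
    ∃ x y : ℝ × ℝ, ∃ t : ℝ, 1 ≤ t ∧ x ∈ K ∧ y ∈ K ∧ y = x + t • d ∧
      (x ∈ K.extremePoints ℝ ∨ y ∈ K.extremePoints ℝ) := by
  -- the cross product and the scalar product with `d`
  let cr : ℝ × ℝ → ℝ := fun u => u.1 * d.2 - u.2 * d.1
  let ip : ℝ × ℝ → ℝ := fun u => u.1 * d.1 + u.2 * d.2
  have crc : Continuous cr := by fun_prop
  have ipc : Continuous ip := by fun_prop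
  have cradd : ∀ (u v : ℝ × ℝ), cr (u + v) = cr u + cr v := by
    intro u v; simp only [cr, Prod.fst_add, Prod.snd_add]; ring
  have ipadd : ∀ (u v : ℝ × ℝ), ip (u + v) = ip u + ip v := by
    intro u v; simp only [ip, Prod.fst_add, Prod.snd_add]; ring
  have crsmul : ∀ (t : ℝ) (u : ℝ × ℝ), cr (t • u) = t * cr u := by
    intro t u; simp only [cr, Prod.smul_fst, Prod.smul_snd, smul_eq_mul]; ring
  have ipsmul : ∀ (t : ℝ) (u : ℝ × ℝ), ip (t • u) = t * ip u := by
    intro t u; simp only [ip, Prod.smul_fst, Prod.smul_snd, smul_eq_mul]; ring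
  have crsub : ∀ (u v : ℝ × ℝ), cr (u - v) = cr u - cr v := by
    intro u v; simp only [cr, Prod.fst_sub, Prod.snd_sub]; ring
  have ipsub : ∀ (u v : ℝ × ℝ), ip (u - v) = ip u - ip v := by
    intro u v; simp only [ip, Prod.fst_sub, Prod.snd_sub]; ring
  have hdd : 0 < ip d := by
    simp only [ip]
    have : d.1 ≠ 0 ∨ d.2 ≠ 0 := by
      by_contra hcon
      push Not at hcon
      exact hd (Prod.ext hcon.1 hcon.2)
    rcases this with h | h
    · have := mul_self_pos.2 h
      nlinarith [mul_self_nonneg d.2]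
    · have := mul_self_pos.2 h
      nlinarith [mul_self_nonneg d.1]
  have par : ∀ u : ℝ × ℝ, cr u = 0 → ip u = 0 → u = 0 := by
    intro u h1 h2
    simp only [cr] at h1
    simp only [ip] at h2
    simp only [ip] at hdd
    have e1 : u.1 * (d.1 * d.1 + d.2 * d.2) = 0 := by linear_combination d.2 * h1 + d.1 * h2
    have e2 : u.2 * (d.1 * d.1 + d.2 * d.2) = 0 := by linear_combination (-d.1) * h1 + d.2 * h2
    ext
    · simpa [hdd.ne'] using e1
    · simpa [hdd.ne'] using e2
  have par' : ∀ u : ℝ × ℝ, cr u = 0 → u = (ip u / ip d) • d := by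
    intro u h1
    have : u - (ip u / ip d) • d = 0 := by
      apply par
      · rw [crsub, crsmul, h1]
        have : cr d = 0 := by simp only [cr]; ring
        rw [this]; ring
      · rw [ipsub, ipsmul]
        field_simp
        ring
    exact sub_eq_zero.1 this
  let P : Set ((ℝ × ℝ) × (ℝ × ℝ)) := (K ×ˢ K) ∩ {z | cr (z.2 - z.1) = 0}
  have hPc : IsCompact P := by
    apply (hc.prod hc).inter_right
    exact isClosed_eq (crc.comp (by fun_prop)) continuous_const
  have hPne : (x0, x0 + d) ∈ P := by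
    refine ⟨⟨hx0, hy0⟩, ?_⟩
    show cr (x0 + d - x0) = 0
    rw [add_sub_cancel_left]
    simp only [cr]; ring
  obtain ⟨z0, hz0, hmax⟩ := hPc.exists_isMaxOn ⟨_, hPne⟩
    (f := fun z => ip (z.2 - z.1)) (by fun_prop)
  set s : ℝ := ip (z0.2 - z0.1) with hs
  have hmax' : ∀ z ∈ P, ip (z.2 - z.1) ≤ s := fun z hz => hmax hz
  have hs1 : ip d ≤ s := by
    have := hmax' _ hPne
    simpa using this
  let M : Set ((ℝ × ℝ) × (ℝ × ℝ)) := P ∩ {z | ip (z.2 - z.1) = s}
  have hMc : IsCompact M := by
    apply hPc.inter_right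
    exact isClosed_eq (ipc.comp (by fun_prop)) continuous_const
  obtain ⟨⟨x, y⟩, hxy⟩ := hMc.extremePoints_nonempty ⟨z0, hz0, rfl⟩
  obtain ⟨⟨⟨⟨hx, hy⟩, hcr⟩, hip⟩, hext⟩ := mem_extremePoints.1 hxy
  have hx' : x ∈ K := hx
  have hy' : y ∈ K := hy
  have hcr' : cr (y - x) = 0 := hcr
  have hip' : ip (y - x) = s := hip
  have hyx : y = x + (s / ip d) • d := by
    have := par' _ hcr'
    rw [hip'] at this
    rw [← this]
    simp
  refine ⟨x, y, s / ip d, ?_, hx', hy', hyx, ?_⟩
  · rw [le_div_iff₀ hdd, one_mul]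
    exact hs1
  by_contra hcon
  push Not at hcon
  obtain ⟨u, hu, hu1, hu2⟩ := not_ext hK hx' hcon.1
  obtain ⟨w, hw, hw1, hw2⟩ := not_ext hK hy' hcon.2
  -- `u` is not parallel to `d`
  have hcu : cr u ≠ 0 := by
    intro h0
    have hne : ip u ≠ 0 := fun h => hu (par u h0 h)
    have a1 := hmax' (x + u, y) ⟨⟨hu1, hy'⟩, by
      show cr (y - (x + u)) = 0
      rw [← sub_sub, crsub, hcr', h0, sub_zero]⟩
    have a2 := hmax' (x - u, y) ⟨⟨hu2, hy'⟩, by
      show cr (y - (x - u)) = 0
      rw [sub_sub_eq_add_sub, add_sub_right_comm, cradd, hcr', h0, add_zero]⟩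
    have a1' : ip (y - x) - ip u ≤ s := by
      have : y - (x + u) = y - x - u := by abel
      simp only [this, ipsub (y - x) u] at a1
      exact a1
    have a2' : ip (y - x) + ip u ≤ s := by
      have : y - (x - u) = (y - x) + u := by abel
      simp only [this, ipadd (y - x) u] at a2
      exact a2
    rw [hip'] at a1' a2'
    apply hne
    linarith
  have hcw : cr w ≠ 0 := by
    intro h0
    have hne : ip w ≠ 0 := fun h => hw (par w h0 h)
    have a1 := hmax' (x, y + w) ⟨⟨hx', hw1⟩, by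
      show cr (y + w - x) = 0
      rw [add_sub_right_comm, cradd, hcr', h0, add_zero]⟩
    have a2 := hmax' (x, y - w) ⟨⟨hx', hw2⟩, by
      show cr (y - w - x) = 0
      rw [sub_right_comm, crsub, hcr', h0, sub_zero]⟩
    have a1' : ip (y - x) + ip w ≤ s := by
      have : y + w - x = (y - x) + w := by abel
      simp only [this, ipadd (y - x) w] at a1
      exact a1
    have a2' : ip (y - x) - ip w ≤ s := by
      have : y - w - x = (y - x) - w := by abel
      simp only [this, ipsub (y - x) w] at a2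
      exact a2
    rw [hip'] at a1' a2'
    apply hne
    linarith
  set D : ℝ := |cr u| + |cr w| with hD
  have hD0 : 0 < D := by
    have := abs_pos.2 hcu
    have := abs_nonneg (cr w)
    linarith
  set α : ℝ := cr w / D with hα
  set β : ℝ := cr u / D with hβ
  have hα1 : |α| ≤ 1 := by
    rw [hα, abs_div, abs_of_pos hD0, div_le_one hD0]
    have := abs_nonneg (cr u)
    linarith
  have hβ1 : |β| ≤ 1 := by
    rw [hβ, abs_div, abs_of_pos hD0, div_le_one hD0]
    have := abs_nonneg (cr w)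
    linarith
  have hαβ : α * cr u = β * cr w := by rw [hα, hβ]; ring
  have m1 : x + α • u ∈ K := pert hK hu1 hu2 hα1
  have m2 : x - α • u ∈ K := by
    have := pert hK hu1 hu2 (t := -α) (by rwa [abs_neg])
    rwa [neg_smul, ← sub_eq_add_neg] at this
  have m3 : y + β • w ∈ K := pert hK hw1 hw2 hβ1
  have m4 : y - β • w ∈ K := by
    have := pert hK hw1 hw2 (t := -β) (by rwa [abs_neg])
    rwa [neg_smul, ← sub_eq_add_neg] at this
  have p1 : (x + α • u, y + β • w) ∈ P := by
    refine ⟨⟨m1, m3⟩, ?_⟩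
    show cr (y + β • w - (x + α • u)) = 0
    have : y + β • w - (x + α • u) = (y - x) + (β • w - α • u) := by abel
    rw [this, cradd, hcr', crsub (β • w), crsmul, crsmul, hαβ]
    ring
  have p2 : (x - α • u, y - β • w) ∈ P := by
    refine ⟨⟨m2, m4⟩, ?_⟩
    show cr (y - β • w - (x - α • u)) = 0
    have : y - β • w - (x - α • u) = (y - x) - (β • w - α • u) := by abel
    rw [this, crsub (y - x), hcr', crsub (β • w), crsmul, crsmul, hαβ]
    ring
  have q1 := hmax' _ p1
  have q2 := hmax' _ p2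
  have e1 : ip (y + β • w - (x + α • u)) = s + ip (β • w - α • u) := by
    have : y + β • w - (x + α • u) = (y - x) + (β • w - α • u) := by abel
    rw [this, ipadd, hip']
  have e2 : ip (y - β • w - (x - α • u)) = s - ip (β • w - α • u) := by
    have : y - β • w - (x - α • u) = (y - x) - (β • w - α • u) := by abel
    rw [this, ipsub, hip']
  simp only [e1] at q1
  simp only [e2] at q2
  have hz : ip (β • w - α • u) = 0 := by linarith
  have r1 : (x + α • u, y + β • w) ∈ M := ⟨p1, by
    show ip (y + β • w - (x + α • u)) = s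
    rw [e1, hz, add_zero]⟩
  have r2 : (x - α • u, y - β • w) ∈ M := ⟨p2, by
    show ip (y - β • w - (x - α • u)) = s
    rw [e2, hz, sub_zero]⟩
  have hseg : (x, y) ∈ openSegment ℝ (x + α • u, y + β • w) (x - α • u, y - β • w) := by
    refine ⟨1 / 2, 1 / 2, by norm_num, by norm_num, by norm_num, ?_⟩
    ext <;> simp <;> ring
  have hfin := hext _ r1 _ r2 hseg
  have hfe : x + α • u = x := congrArg Prod.fst hfin.1
  have hau : α • u = 0 := by simpa using hfe
  rcases smul_eq_zero.1 hau with h | h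
  · rw [hα, div_eq_zero_iff] at h
    rcases h with h | h
    · exact hcw h
    · exact hD0.ne' h
  · exact hu h

/-- longest chord lemma for lattice convex sets -/
theorem chord {N : Finset (ℤ × ℤ)} (hN : LC N) (a b : ℤ) (hab : ¬(a = 0 ∧ b = 0))
    (x : ℝ × ℝ) (hx : x ∈ hl N) (hy : (x.1 + a, x.2 + b) ∈ hl N) :
    ∃ v ∈ N, (v.1 + a, v.2 + b) ∈ N ∧
      (rp v ∈ (hl N).extremePoints ℝ ∨ rp (v.1 + a, v.2 + b) ∈ (hl N).extremePoints ℝ) := by
  have hd : ((a : ℝ), (b : ℝ)) ≠ 0 := by
    intro h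
    apply hab
    have h1 := congrArg Prod.fst h
    have h2 := congrArg Prod.snd h
    simp only [Prod.fst_zero, Prod.snd_zero, Int.cast_eq_zero] at h1 h2
    exact ⟨h1, h2⟩
  have hy' : x + ((a : ℝ), (b : ℝ)) ∈ hl N := by
    have : x + ((a : ℝ), (b : ℝ)) = (x.1 + a, x.2 + b) := rfl
    rw [this]
    exact hy
  obtain ⟨x', y', t, ht, hx', hy', e, hor⟩ :=
    longest (hl_convex N) (hl_compact N) _ hd x hx hy'
  have hext : ∀ z : ℝ × ℝ, z ∈ (hl N).extremePoints ℝ → ∃ v ∈ N, rp v = z := by
    intro z hz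
    obtain ⟨v, hv, hvz⟩ := extremePoints_convexHull_subset hz
    exact ⟨v, hv, hvz⟩
  have ht0 : (0 : ℝ) < t := by linarith
  rcases hor with h | h
  · obtain ⟨v, hv, hvx⟩ := hext _ h
    refine ⟨v, hv, ?_, Or.inl (by rw [hvx]; exact h)⟩
    refine hN.seg hx' hy' (1 / t) (by positivity) ?_ ?_ ?_
    · rw [div_le_one ht0]; exact ht
    · rw [e, ← hvx]
      simp only [rp, Prod.fst_add, Prod.smul_fst, smul_eq_mul]
      push_cast
      field_simp
      ring
    · rw [e, ← hvx]
      simp only [rp, Prod.snd_add, Prod.smul_snd, smul_eq_mul]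
      push_cast
      field_simp
      ring
  · obtain ⟨w, hw, hwy⟩ := hext _ h
    refine ⟨(w.1 - a, w.2 - b), ?_, ?_, Or.inr ?_⟩
    · have e1 : (w.1 : ℝ) = x'.1 + t * a := by
        have := congrArg Prod.fst hwy
        rw [e] at this
        simpa [rp] using this
      have e2 : (w.2 : ℝ) = x'.2 + t * b := by
        have := congrArg Prod.snd hwy
        rw [e] at this
        simpa [rp] using this
      refine hN.seg hx' hy' (1 - 1 / t) ?_ ?_ ?_ ?_
      · rw [sub_nonneg, div_le_one ht0]; exact ht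
      · have : 0 ≤ 1 / t := by positivity
        linarith
      · rw [← hwy]
        simp only [rp]
        push_cast
        rw [e1]
        field_simp
        ring
      · rw [← hwy]
        simp only [rp]
        push_cast
        rw [e2]
        field_simp
        ring
    · simpa using hw
    · have : (w.1 - a + a, w.2 - b + b) = w := by simp
      simp only [this]
      rw [hwy]
      exact h

/-- removing an extreme point -/
theorem erase_LC {N : Finset (ℤ × ℤ)} (hN : LC N) {w : ℤ × ℤ}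
    (hext : rp w ∈ (hl N).extremePoints ℝ) : LC (N.erase w) := by
  have hconv : Convex ℝ (hl N \ {rp w}) :=
    ((hl_convex N).mem_extremePoints_iff_convex_sdiff.1 hext).2
  have hsub : hl (N.erase w) ⊆ hl N \ {rp w} := by
    apply convexHull_min _ hconv
    rintro _ ⟨v, hv, rfl⟩
    have hv' := Finset.mem_erase.1 (Finset.mem_coe.1 hv)
    refine ⟨subset_hl hv'.2, ?_⟩
    intro h
    exact hv'.1 (rp_inj h)
  intro z hz
  have hz' := hsub hz
  rw [Finset.mem_erase]
  refine ⟨?_, hN z hz'.1⟩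
  rintro rfl
  exact hz'.2 rfl

theorem cls_erase {q : ℕ} {N : Finset (ℤ × ℤ)} {v w : ℤ × ℤ} (hw : w ∈ N) (hne : w ≠ v)
    (h : red q v = red q w) : cls q (N.erase v) = cls q N := by
  ext c
  rw [mem_cls, mem_cls]
  constructor
  · rintro ⟨z, hz, e⟩
    exact ⟨z, Finset.mem_of_mem_erase hz, e⟩
  · rintro ⟨z, hz, e⟩
    by_cases hzv : z = v
    · refine ⟨w, Finset.mem_erase.2 ⟨hne, hw⟩, ?_⟩
      rw [← h, ← hzv]
      exact e
    · exact ⟨z, Finset.mem_erase.2 ⟨hzv, hz⟩, e⟩

/-- reduction to `q`-injective sets -/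
theorem reduce (q : ℕ) : ∀ (n : ℕ) (N : Finset (ℤ × ℤ)), N.card = n → LC N →
    ∃ N' : Finset (ℤ × ℤ), N' ⊆ N ∧ LC N' ∧ QI q N' ∧ cls q N' = cls q N := by
  intro n
  induction n using Nat.strong_induction_on with
  | _ n ih =>
    intro N hcard hN
    by_cases hQ : QI q N
    · exact ⟨N, subset_rfl, hN, hQ, rfl⟩
    · unfold QI at hQ
      push Not at hQ
      obtain ⟨v, hv, w, hw, hr, hne⟩ := hQ
      obtain ⟨a, b, ha, hb⟩ := red_eq_iff.1 hr
      have hab : ¬((q : ℤ) * a = 0 ∧ (q : ℤ) * b = 0) := by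
        rintro ⟨h1, h2⟩
        apply hne
        ext
        · omega
        · omega
      have hwe : (((rp v).1 + ((q * a : ℤ) : ℝ)), ((rp v).2 + ((q * b : ℤ) : ℝ))) = rp w := by
        unfold rp
        rw [ha, hb]
        push_cast
        rfl
      obtain ⟨v', hv', hw', hor⟩ := chord hN ((q : ℤ) * a) ((q : ℤ) * b) hab (rp v)
        (subset_hl hv) (by rw [hwe]; exact subset_hl hw)
      have hne' : v' ≠ (v'.1 + (q : ℤ) * a, v'.2 + (q : ℤ) * b) := by
        intro h
        have h1 := congrArg Prod.fst h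
        have h2 := congrArg Prod.snd h
        simp only at h1 h2
        apply hab
        constructor <;> omega
      have hred : red q v' = red q (v'.1 + (q : ℤ) * a, v'.2 + (q : ℤ) * b) :=
        red_eq_iff.2 ⟨a, b, rfl, rfl⟩
      rcases hor with h | h
      · have hlt : (N.erase v').card < n := by
          rw [← hcard]; exact Finset.card_erase_lt_of_mem hv'
        obtain ⟨N', h1, h2, h3, h4⟩ := ih _ hlt _ rfl (erase_LC hN h)
        refine ⟨N', h1.trans (Finset.erase_subset _ _), h2, h3, ?_⟩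
        rw [h4]
        exact cls_erase hw' hne'.symm hred
      · have hlt : (N.erase (v'.1 + (q : ℤ) * a, v'.2 + (q : ℤ) * b)).card < n := by
          rw [← hcard]; exact Finset.card_erase_lt_of_mem hw'
        obtain ⟨N', h1, h2, h3, h4⟩ := ih _ hlt _ rfl (erase_LC hN h)
        refine ⟨N', h1.trans (Finset.erase_subset _ _), h2, h3, ?_⟩
        rw [h4]
        exact cls_erase hv' hne' hred.symm

end Pool.Agent.PLM
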