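import Pool.Agent.PLM.Lin

/-!
A `q`-injective lattice convex set with chords in directions `(1,1)` and `(1,-1)` hits all
classes modulo `p`, `q = p + 1`.
-/

namespace Pool.Agent.PLM

theorem hl_seg {N : Finset (ℤ × ℤ)} {x y : ℝ × ℝ} (hx : x ∈ hl N) (hy : y ∈ hl N) (t : ℝ)
    (h0 : 0 ≤ t) (h1 : t ≤ 1) : ((1 - t) * x.1 + t * y.1, (1 - t) * x.2 + t * y.2) ∈ hl N := by
  have h := hl_convex N hx hy (a := 1 - t) (b := t) (by linarith) h0 (by ring)
  have e : ((1 - t) * x.1 + t * y.1, (1 - t) * x.2 + t * y.2) = (1 - t) • x + t • y := by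
    ext <;> simp
  rw [e]
  exact h

theorem LC.segI {N : Finset (ℤ × ℤ)} (hN : LC N) {v w z : ℤ × ℤ} (hv : v ∈ N) (hw : w ∈ N)
    (n i : ℤ) (hn : 0 < n) (h0 : 0 ≤ i) (h1 : i ≤ n)
    (e1 : n * z.1 = (n - i) * v.1 + i * w.1) (e2 : n * z.2 = (n - i) * v.2 + i * w.2) :
    z ∈ N := by
  have hn' : (0 : ℝ) < n := by exact_mod_cast hn
  refine hN.seg (subset_hl hv) (subset_hl hw) ((i : ℝ) / n) ?_ ?_ ?_ ?_
  · have : (0 : ℝ) ≤ i := by exact_mod_cast h0
    positivity
  · rw [div_le_one hn']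
    exact_mod_cast h1
  · have e : (n : ℝ) * z.1 = (n - i) * v.1 + i * w.1 := by exact_mod_cast e1
    simp only [rp]
    field_simp
    linear_combination e
  · have e : (n : ℝ) * z.2 = (n - i) * v.2 + i * w.2 := by exact_mod_cast e2
    simp only [rp]
    field_simp
    linear_combination e

/-- representatives of a class in a box -/
theorem box_rep {p : ℕ} (hp : 0 < p) (c : ZMod p × ZMod p) (x y : ℤ) :
    ∃ k l : ℤ, 0 ≤ k ∧ k < p ∧ 0 ≤ l ∧ l < p ∧ red p (x + k, y + l) = c := by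
  have : NeZero p := ⟨hp.ne'⟩
  have hp' : (0 : ℤ) < p := by exact_mod_cast hp
  refine ⟨((c.1.val : ℤ) - x) % p, ((c.2.val : ℤ) - y) % p, Int.emod_nonneg _ hp'.ne',
    Int.emod_lt_of_pos _ hp', Int.emod_nonneg _ hp'.ne', Int.emod_lt_of_pos _ hp', ?_⟩
  unfold red
  ext
  · simp
  · simp

/-- the set hits all classes -/
def Full (p : ℕ) (N : Finset (ℤ × ℤ)) : Prop := ∀ c : ZMod p × ZMod p, c ∈ cls p N

theorem F4a {p : ℕ} (hp : 2 ≤ p) {N : Finset (ℤ × ℤ)} (hN : LC N) (hQ : QI (p + 1) N)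
    (x0 y0 m n : ℤ) (hn : n ≤ 0) (hmn : -n ≤ m)
    (hA : (x0, y0) ∈ N) (hB : (x0 + p, y0 + p) ∈ N)
    (hC : (x0 + m, y0 + p + n) ∈ N) (hE : (x0 + m + p, y0 + n) ∈ N) : Full p N := by
  have hp' : (2 : ℤ) ≤ p := by exact_mod_cast hp
  have hpR : (2 : ℝ) ≤ p := by exact_mod_cast hp
  -- no q-chord at height `y0`
  have h1 : (m - 1) * p < -n := by
    by_contra hcon
    push Not at hcon
    have hconR : -(n : ℝ) ≤ (m - 1) * p := by exact_mod_cast hcon
    have hnR : (n : ℝ) ≤ 0 := by exact_mod_cast hn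
    have hmR : -(n : ℝ) ≤ m := by exact_mod_cast hmn
    have hd : (0 : ℝ) < p - n := by linarith
    have hs := hl_seg (subset_hl hE) (subset_hl hB) (-(n : ℝ) / (p - n))
      (by apply div_nonneg <;> linarith) (by rw [div_le_one hd]; linarith)
    have hmem : (x0 + (p + 1 : ℤ), y0) ∈ N := by
      have hden : (0 : ℝ) < p - n + m := by linarith
      have hd' : (p : ℝ) - n ≠ 0 := hd.ne'
      have hden' : (p : ℝ) - n + m ≠ 0 := hden.ne'
      have hp0 : (p : ℝ) ≠ 0 := by linarith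
      refine hN.seg (subset_hl hA) hs (((p + 1 : ℝ) * (p - n)) / (p * (p - n + m))) ?_ ?_ ?_ ?_
      · positivity
      · rw [div_le_one (by positivity)]
        nlinarith
      · simp only [rp]
        push_cast
        field_simp
        ring
      · simp only [rp]
        push_cast
        field_simp
        ring
    have := hQ _ hA _ hmem (red_eq_iff.2 ⟨1, 0, by push_cast; ring, by ring⟩)
    have := congrArg Prod.fst this
    simp only at this
    omega
  have h2 : (m = 0 ∧ n = 0) ∨ (m = 1 ∧ n = -1) := by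
    have hm2 : m ≤ 1 := by
      by_contra hcon
      push Not at hcon
      nlinarith
    have hm0 : 0 ≤ m := by linarith
    interval_cases m
    · left; exact ⟨rfl, by omega⟩
    · right; exact ⟨rfl, by omega⟩
  intro c
  rcases h2 with ⟨rfl, rfl⟩ | ⟨rfl, rfl⟩
  · obtain ⟨k, l, hk0, hk1, hl0, hl1, e⟩ := box_rep (by omega : 0 < p) c x0 y0
    rw [mem_cls]
    refine ⟨_, ?_, e⟩
    have hb : (x0 + k, y0) ∈ N :=
      hN.segI (v := (x0, y0)) (w := (x0 + 0 + p, y0 + 0)) hA hE p k (by omega) hk0 hk1.le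
        (by ring) (by ring)
    have ht : (x0 + k, y0 + p) ∈ N :=
      hN.segI (v := (x0 + 0, y0 + p + 0)) (w := (x0 + p, y0 + p)) hC hB p k (by omega) hk0 hk1.le
        (by ring) (by ring)
    exact hN.segI hb ht p l (by omega) hl0 hl1.le (by ring) (by ring)
  · obtain ⟨k, l, hk0, hk1, hl0, hl1, e⟩ := box_rep (by omega : 0 < p) c (x0 + 1) y0
    rw [mem_cls]
    refine ⟨_, ?_, e⟩
    have hlR : (0 : ℝ) ≤ l := by exact_mod_cast hl0
    have hlp : (l : ℝ) + 1 ≤ p := by exact_mod_cast hl1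
    have hp1 : (0 : ℝ) < p + 1 := by linarith
    have hL : (x0 + 1, y0 + l) ∈ N := by
      have hs := hl_seg (subset_hl hA) (subset_hl hE) (1 / (p + 1 : ℝ))
        (by positivity) (by rw [div_le_one hp1]; linarith)
      refine hN.seg hs (subset_hl hC) (((p + 1 : ℝ) * l + 1) / (p * p)) ?_ ?_ ?_ ?_
      · positivity
      · rw [div_le_one (by positivity)]
        nlinarith
      · simp only [rp]
        push_cast
        field_simp
        ring
      · simp only [rp]
        push_cast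
        field_simp
        ring
    have hR : (x0 + p, y0 + l) ∈ N := by
      have hs := hl_seg (subset_hl hA) (subset_hl hE) (p / (p + 1 : ℝ))
        (by positivity) (by rw [div_le_one hp1]; linarith)
      refine hN.seg hs (subset_hl hB) (((p + 1 : ℝ) * l + p) / (p * (p + 2))) ?_ ?_ ?_ ?_
      · positivity
      · rw [div_le_one (by positivity)]
        nlinarith
      · simp only [rp]
        push_cast
        field_simp
        ring
      · simp only [rp]
        push_cast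
        field_simp
        ring
    exact hN.segI hL hR (p - 1) k (by omega) hk0 (by omega) (by ring) (by ring)

theorem Full_im {a b c d : ℤ} (h : a * d - b * c = 1 ∨ a * d - b * c = -1) {N : Finset (ℤ × ℤ)}
    {p : ℕ} (hp : 0 < p) (hF : Full p (im a b c d N)) : Full p N := by
  classical
  have : NeZero p := ⟨hp.ne'⟩
  have h1 : cls p (im a b c d N) = Finset.univ := Finset.eq_univ_iff_forall.2 hF
  have h2 := cls_im h N p
  rw [h1] at h2
  have h3 : cls p N = Finset.univ := Finset.eq_univ_of_card _ h2.symm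
  intro c
  rw [h3]
  exact Finset.mem_univ c

theorem F4b {p : ℕ} (hp : 2 ≤ p) {N : Finset (ℤ × ℤ)} (hN : LC N) (hQ : QI (p + 1) N)
    (x0 y0 m n : ℤ) (hmn : -n ≤ m) (hmn' : n ≤ m)
    (hA : (x0, y0) ∈ N) (hB : (x0 + p, y0 + p) ∈ N)
    (hC : (x0 + m, y0 + p + n) ∈ N) (hE : (x0 + m + p, y0 + n) ∈ N) : Full p N := by
  by_cases hn : n ≤ 0
  · exact F4a hp hN hQ x0 y0 m n hn hmn hA hB hC hE
  · have hdet : (-1 : ℤ) * 1 - 0 * 0 = 1 ∨ (-1 : ℤ) * 1 - 0 * 0 = -1 := by right; norm_num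
    apply Full_im hdet (by omega)
    refine F4a hp (LC_im hdet hN) (QI_im hdet hQ) (-x0 - m - p) (y0 + n) m (-n) (by omega)
      (by omega) ?_ ?_ ?_ ?_
    · exact mem_im' hdet hE (by simp; ring) (by simp)
    · exact mem_im' hdet hC (by simp; ring) (by simp; ring)
    · exact mem_im' hdet hB (by simp; ring) (by simp; ring)
    · exact mem_im' hdet hA (by simp; ring) (by simp)

theorem F4c {p : ℕ} (hp : 2 ≤ p) {N : Finset (ℤ × ℤ)} (hN : LC N) (hQ : QI (p + 1) N)
    (x0 y0 m n : ℤ) (hmn : |n| ≤ |m|)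
    (hA : (x0, y0) ∈ N) (hB : (x0 + p, y0 + p) ∈ N)
    (hC : (x0 + m, y0 + p + n) ∈ N) (hE : (x0 + m + p, y0 + n) ∈ N) : Full p N := by
  obtain ⟨h1, h2⟩ := abs_le.1 hmn
  by_cases hm : 0 ≤ m
  · rw [abs_of_nonneg hm] at h1 h2
    exact F4b hp hN hQ x0 y0 m n (by omega) h2 hA hB hC hE
  · push Not at hm
    rw [abs_of_neg hm] at h1 h2
    have hdet : (-1 : ℤ) * (-1) - 0 * 0 = 1 ∨ (-1 : ℤ) * (-1) - 0 * 0 = -1 := by left; norm_num
    apply Full_im hdet (by omega)
    refine F4b hp (LC_im hdet hN) (QI_im hdet hQ) (-x0 - p) (-y0 - p) (-m) (-n) (by omega)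
      (by omega) ?_ ?_ ?_ ?_
    · exact mem_im' hdet hB (by simp; ring) (by simp; ring)
    · exact mem_im' hdet hA (by simp) (by simp)
    · exact mem_im' hdet hE (by simp; ring) (by simp; ring)
    · exact mem_im' hdet hC (by simp; ring) (by simp; ring)

theorem F4d {p : ℕ} (hp : 2 ≤ p) {N : Finset (ℤ × ℤ)} (hN : LC N) (hQ : QI (p + 1) N)
    (x0 y0 m n : ℤ)
    (hA : (x0, y0) ∈ N) (hB : (x0 + p, y0 + p) ∈ N)
    (hC : (x0 + m, y0 + p + n) ∈ N) (hE : (x0 + m + p, y0 + n) ∈ N) : Full p N := by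
  by_cases hmn : |n| ≤ |m|
  · exact F4c hp hN hQ x0 y0 m n hmn hA hB hC hE
  · push Not at hmn
    have hdet : (0 : ℤ) * 0 - 1 * 1 = 1 ∨ (0 : ℤ) * 0 - 1 * 1 = -1 := by right; norm_num
    apply Full_im hdet (by omega)
    refine F4c hp (LC_im hdet hN) (QI_im hdet hQ) y0 x0 n m hmn.le ?_ ?_ ?_ ?_
    · exact mem_im' hdet hA (by simp) (by simp)
    · exact mem_im' hdet hB (by simp) (by simp)
    · exact mem_im' hdet hE (by simp) (by simp; ring)
    · exact mem_im' hdet hC (by simp; ring) (by simp)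

end Pool.Agent.PLM
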