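import Mathlib
import Pool.Agent.Helper86.BHW.Hit

/-!
The winding lemma: classes modulo `Q` on the cosets of a cyclic subgroup.
-/

open Module

namespace Pool.Agent.PLM

open Pool.Agent.Helper86.BHW

private theorem wind_aux (Q q : ℕ) (P : Finset ℕ) (hP : P ⊆ Finset.range Q)
    (hc : q < P.card) (g : ℕ → ℤ) (W : ℤ) (hQ : 0 < Q)
    (h1 : ∀ i ∈ P, ∀ j ∈ P, i ≤ j → j - i + q ≤ Q → g i = g j)
    (h2 : ∀ i ∈ P, ∀ j ∈ P, i ≤ j → q ≤ j - i → g j - g i + Q * W = 0) : W = 0 := by
  have key : ∀ n : ℕ, ∀ i ∈ P, ∀ j ∈ P, i ≤ j → j - i ≤ n → g i = g j := by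
    intro n
    induction n with
    | zero =>
      intro i hi j hj hij hn
      have : i = j := by omega
      rw [this]
    | succ n ih =>
      intro i hi j hj hij hn
      by_cases hex : ∃ k ∈ P, i < k ∧ k < j
      · obtain ⟨k, hk, hik, hkj⟩ := hex
        exact (ih i hi k hk hik.le (by omega)).trans (ih k hk j hj hkj.le (by omega))
      · push Not at hex
        rcases Nat.eq_or_lt_of_le hij with h | h
        · rw [h]
        · apply h1 i hi j hj hij
          have hsub : P ⊆ (Finset.range Q) \ (Finset.Ioo i j) := by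
            intro x hx
            rw [Finset.mem_sdiff, Finset.mem_Ioo]
            refine ⟨hP hx, ?_⟩
            rintro ⟨hx1, hx2⟩
            exact absurd hx2 (not_lt.2 (hex x hx hx1))
          have hcard := Finset.card_le_card hsub
          have hs2 : Finset.Ioo i j ⊆ Finset.range Q := by
            intro x hx
            rw [Finset.mem_Ioo] at hx
            have := Finset.mem_range.1 (hP hj)
            exact Finset.mem_range.2 (by omega)
          rw [Finset.card_sdiff_of_subset hs2, Nat.card_Ioo, Finset.card_range] at hcard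
          have hjQ := Finset.mem_range.1 (hP hj)
          omega
  have hne : P.Nonempty := Finset.card_pos.1 (by omega)
  have hmin := P.min'_mem hne
  have hmax := P.max'_mem hne
  have hle : P.min' hne ≤ P.max' hne := P.min'_le _ hmax
  have hsub : P ⊆ Finset.Icc (P.min' hne) (P.max' hne) := by
    intro x hx
    exact Finset.mem_Icc.2 ⟨P.min'_le x hx, P.le_max' x hx⟩
  have hcard := Finset.card_le_card hsub
  rw [Nat.card_Icc] at hcard
  have e1 := key (P.max' hne) _ hmin _ hmax hle (by omega)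
  have e2 := h2 _ hmin _ hmax hle (by omega)
  rw [e1] at e2
  have e3 : (Q : ℤ) * W = 0 := by linarith
  rcases mul_eq_zero.1 e3 with h | h
  · exfalso
    have : (Q : ℤ) ≠ 0 := by exact_mod_cast hQ.ne'
    exact this h
  · exact h

private theorem red_add' {ι : Type*} (n : ℕ) (x y : ι → ℤ) : red n (x + y) = red n x + red n y := by
  funext j
  simp [red]

private theorem red_zsmul' {ι : Type*} (n : ℕ) (m : ℤ) (y : ι → ℤ) :
    red n (m • y) = m • red n y := by
  funext j
  simp [red]

private theorem red_Q {ι : Type*} (n : ℕ) (y : ι → ℤ) : (n : ℤ) • red n y = 0 := by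
  funext j
  simp [red]

theorem wind {d : ℕ} (Q q : ℕ) (hQ : 0 < Q) (hqQ : q ≤ Q) (A : Set (Fin (d + 1) → ℤ))
    (hA : A.Finite) (w : Fin (d + 1) → ℤ) (hw : w (Fin.last d) ≠ 0)
    (hord : ∀ m : ℤ, red Q (m • w) = red Q 0 → (Q : ℤ) ∣ m)
    (H : ∀ a ∈ A, ∀ b ∈ A, ∀ m : ℤ, |m| ≤ Q - q → ∀ z : Fin (d + 1) → ℤ,
      a - b + m • w = (Q : ℤ) • z → z (Fin.last d) = 0) :
    (red Q '' A).ncard ≤ Q ^ d * q := by
  classical
  haveI : NeZero Q := ⟨hQ.ne'⟩
  have _ := hA
  set ω : Fin (d + 1) → ZMod Q := red Q w with hω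
  have hred0 : red Q (0 : Fin (d + 1) → ℤ) = 0 := by
    funext j
    simp [red]
  -- fibre bound
  have hfib : ∀ c0 : Fin (d + 1) → ZMod Q,
      ((Finset.range Q).filter (fun i : ℕ => c0 + (i : ℤ) • ω ∈ red Q '' A)).card ≤ q := by
    intro c0
    by_contra hcon
    push Not at hcon
    set P := (Finset.range Q).filter (fun i : ℕ => c0 + (i : ℤ) • ω ∈ red Q '' A) with hPdef
    have hmem : ∀ i ∈ P, ∃ a ∈ A, red Q a = c0 + (i : ℤ) • ω := by
      intro i hi
      obtain ⟨a, ha, hae⟩ := (Finset.mem_filter.1 hi).2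
      exact ⟨a, ha, hae⟩
    choose! a ha hae using hmem
    apply hw
    apply wind_aux Q q P (Finset.filter_subset _ _) hcon
      (fun i => a i (Fin.last d) - (i : ℤ) * w (Fin.last d)) _ hQ
    · intro i hi j hj hij hg
      have hr : red Q (a i + ((j : ℤ) - i) • w) = red Q (a j) := by
        rw [red_add', red_zsmul', hae i hi, hae j hj, ← hω, sub_smul]
        abel
      obtain ⟨z, hz⟩ := red_eq_iff.1 hr
      have hz' : a i - a j + ((j : ℤ) - i) • w = (Q : ℤ) • z := by
        rw [← hz]
        abel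
      have hz0 := H (a i) (ha i hi) (a j) (ha j hj) ((j : ℤ) - i) (by
        rw [abs_le]
        constructor
        · have : (q : ℤ) ≤ Q := by exact_mod_cast hqQ
          have h3 : (i : ℤ) ≤ j := by exact_mod_cast hij
          linarith
        · have h3 : ((j - i + q : ℕ) : ℤ) ≤ Q := by exact_mod_cast hg
          push_cast [Nat.cast_sub hij] at h3
          linarith) z hz'
      have h4 := congrFun hz' (Fin.last d)
      simp only [Pi.add_apply, Pi.sub_apply, Pi.smul_apply, smul_eq_mul, hz0, mul_zero] at h4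
      show a i (Fin.last d) - (i : ℤ) * w (Fin.last d) =
        a j (Fin.last d) - (j : ℤ) * w (Fin.last d)
      linarith
    · intro i hi j hj hij hg
      have hjQ : j < Q := Finset.mem_range.1 (Finset.mem_filter.1 hj).1
      have hr : red Q (a j + ((i : ℤ) + Q - j) • w) = red Q (a i) := by
        rw [red_add', red_zsmul', hae i hi, hae j hj, ← hω, sub_smul, add_smul, hω, red_Q]
        abel
      obtain ⟨z, hz⟩ := red_eq_iff.1 hr
      have hz' : a j - a i + ((i : ℤ) + Q - j) • w = (Q : ℤ) • z := by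
        rw [← hz]
        abel
      have hz0 := H (a j) (ha j hj) (a i) (ha i hi) ((i : ℤ) + Q - j) (by
        have h3 : (j : ℤ) < Q := by exact_mod_cast hjQ
        have h5 : (q : ℤ) ≤ Q := by exact_mod_cast hqQ
        have h6 : (0 : ℤ) ≤ i := by positivity
        have h7 : (q : ℤ) ≤ ((j - i : ℕ) : ℤ) := by exact_mod_cast hg
        push_cast [Nat.cast_sub hij] at h7
        rw [abs_le]
        constructor <;> linarith) z hz'
      have h4 := congrFun hz' (Fin.last d)
      simp only [Pi.add_apply, Pi.sub_apply, Pi.smul_apply, smul_eq_mul, hz0, mul_zero] at h4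
      show a j (Fin.last d) - (j : ℤ) * w (Fin.last d) -
        (a i (Fin.last d) - (i : ℤ) * w (Fin.last d)) + Q * w (Fin.last d) = 0
      linarith
  -- cosets
  set K : AddSubgroup (Fin (d + 1) → ZMod Q) := AddSubgroup.zmultiples ω with hK
  set S : Finset (Fin (d + 1) → ZMod Q) := Finset.univ.filter (fun x => x ∈ red Q '' A) with hS
  have hScard : (red Q '' A).ncard = S.card := by
    rw [← Set.ncard_coe_finset]
    congr 1
    ext x
    simp [hS]
  have hquot : Nat.card ((Fin (d + 1) → ZMod Q) ⧸ K) ≤ Q ^ d := by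
    have h1 := AddSubgroup.card_eq_card_quotient_mul_card_addSubgroup K
    have h2 : Nat.card (Fin (d + 1) → ZMod Q) = Q ^ (d + 1) := by
      rw [Nat.card_eq_fintype_card, Fintype.card_fun, ZMod.card, Fintype.card_fin]
    have h3 : Nat.card K = addOrderOf ω := Nat.card_zmultiples ω
    have h4 : Q ≤ addOrderOf ω := by
      apply Nat.le_of_dvd (addOrderOf_pos ω)
      have h5 : red Q ((addOrderOf ω : ℤ) • w) = red Q 0 := by
        rw [red_zsmul', ← hω, hred0, natCast_zsmul, addOrderOf_nsmul_eq_zero]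
      exact_mod_cast hord _ h5
    rw [h2, h3] at h1
    have h6 : Nat.card ((Fin (d + 1) → ZMod Q) ⧸ K) * Q ≤ Q ^ d * Q := by
      rw [← pow_succ, h1]
      exact Nat.mul_le_mul_left _ h4
    exact Nat.le_of_mul_le_mul_right h6 hQ
  rw [hScard]
  have hmain := Finset.card_le_mul_card_image (f := fun x : Fin (d + 1) → ZMod Q =>
    (QuotientAddGroup.mk x : (Fin (d + 1) → ZMod Q) ⧸ K)) S q (by
      intro b hb
      obtain ⟨c0, hc0, rfl⟩ := Finset.mem_image.1 hb
      refine le_trans (le_trans (Finset.card_le_card ?_) (Finset.card_image_le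
        (s := (Finset.range Q).filter (fun i : ℕ => c0 + (i : ℤ) • ω ∈ red Q '' A))
        (f := fun i : ℕ => c0 + (i : ℤ) • ω))) (hfib c0)
      intro x hx
      obtain ⟨hxS, hxe⟩ := Finset.mem_filter.1 hx
      have hxA : x ∈ red Q '' A := (Finset.mem_filter.1 hxS).2
      have hxK : -c0 + x ∈ K := QuotientAddGroup.eq.1 hxe.symm
      obtain ⟨k, hk⟩ := AddSubgroup.mem_zmultiples_iff.1 hxK
      have hQz : (Q : ℤ) ≠ 0 := by exact_mod_cast hQ.ne'
      have hkmod : k • ω = (k % (Q : ℤ)) • ω := by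
        conv_lhs => rw [← Int.emod_add_mul_ediv k Q, add_smul, mul_smul]
        have : (Q : ℤ) • (k / (Q : ℤ)) • ω = 0 := by
          rw [smul_comm, hω, red_Q, smul_zero]
        rw [this, add_zero]
      have hnn : 0 ≤ k % (Q : ℤ) := Int.emod_nonneg _ hQz
      have hlt : k % (Q : ℤ) < Q := Int.emod_lt_of_pos _ (by exact_mod_cast hQ)
      have hx2 : c0 + (((k % (Q : ℤ)).toNat : ℕ) : ℤ) • ω = x := by
        rw [Int.toNat_of_nonneg hnn, ← hkmod, hk]
        abel
      rw [Finset.mem_image]
      refine ⟨(k % (Q : ℤ)).toNat, ?_, hx2⟩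
      rw [Finset.mem_filter, Finset.mem_range, hx2]
      exact ⟨by omega, hxA⟩)
  calc S.card ≤ q * (S.image _).card := hmain
    _ ≤ q * Nat.card ((Fin (d + 1) → ZMod Q) ⧸ K) := by
        apply Nat.mul_le_mul_left
        rw [Nat.card_eq_fintype_card]
        exact Finset.card_le_univ _
    _ ≤ q * Q ^ d := Nat.mul_le_mul_left _ hquot
    _ = Q ^ d * q := mul_comm _ _

end Pool.Agent.PLM
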