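import Pool.Agent.PLM.Min2
import Pool.Agent.PLM.BMain
import Pool.Agent.PLM.Wind

/-!
The bound for the number of lattice points, without assumptions.
-/

set_option autoImplicit false
open scoped Pointwise
open Module

namespace Pool.Agent.PLMF

open Pool.Agent.Helper86.BHW
open Pool.Agent.Helper85.BHW (E Lat lam lam_pos lam_mono)

theorem planar : PLM.Planar := PLM.planar_of PLMB.partB

theorem windS : WindS := by
  intro d Q q hQ hqQ A hA w hw hord H
  refine PLM.wind Q q hQ hqQ A hA w hw ?_ H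
  intro m hm
  obtain ⟨z, hz⟩ := red_eq_iff.1 hm
  rw [sub_zero] at hz
  exact hord m z hz

/-- the bound -/
theorem sep_bound3 {d : ℕ} (b : Basis (Fin d) ℝ (E d))
    (K : Set (E d)) (hc : Convex ℝ K) (hcomp : IsCompact K) (hint : (interior K).Nonempty)
    (hsymm : ∀ x ∈ K, -x ∈ K) (n : Fin d → ℕ) (hn : ∀ i, 2 < n i * lam b K i)
    (hgood : ∀ i j : Fin d, (j : ℕ) = i + 1 → (j : ℕ) + 1 < d → Good2 (i + 1) (n i) (n j)) :
    (K ∩ (Lat b : Set (E d))).ncard ≤ ∏ i, n i :=
  sep_bound2 planar windS b K hc hcomp hint hsymm n hn hgood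

end Pool.Agent.PLMF
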