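import Pool.Agent.PLM.Tr
import Pool.Agent.Helper86.BHW.Flag

/-!
The flag argument with the planar comparison, and the last step by the winding lemma.
-/

open Module
open Pool.Agent.Helper86.BHW

namespace Pool.Agent.PLMF

/-- a good pair of moduli in dimension `k` -/
def Good2 (k q p : ℕ) : Prop := p ∣ q ∨ k * p ≤ q ∨ (k = 2 ∧ p ≤ q)

theorem good_compare2 (hP : PLM.Planar) {m : ℕ} (N : Set (Fin m → ℝ)) (hN : Convex ℝ N)
    (hfin : (ipts N).Finite) (p q : ℕ) (hp : 0 < p) (hq : 0 < q) (hg : Good2 m q p) :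
    (hit q N).ncard * p ^ m ≤ (hit p N).ncard * q ^ m := by
  rcases hg with h | h | ⟨h, h'⟩
  · exact good_compare N hN p q hp hq (Or.inl h)
  · exact good_compare N hN p q hp hq (Or.inr h)
  · subst h
    exact PLM.planar_hit hP N hN hfin p q hp h'

/-- the flag theorem, with the extra modulus `q m` -/
theorem flag_aux2 (hP : PLM.Planar) (q : ℕ → ℕ) (hq : ∀ i, 0 < q i) (m : ℕ)
    (hgood : ∀ i < m, Good2 (i + 1) (q i) (q (i + 1))) :
    ∀ N : Set (Fin m → ℝ), Convex ℝ N → (ipts N).Finite →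
    (∀ i < m, ∀ x ∈ ipts N, ∀ y ∈ ipts N, red (q i) x = red (q i) y →
      ∀ j : Fin m, i ≤ (j : ℕ) → x j = y j) →
    (ipts N).ncard * (q m) ^ m ≤ (∏ i ∈ Finset.range m, q i) * (hit (q m) N).ncard := by
  induction m with
  | zero =>
    intro N _ hfin _
    have : NeZero (q 0) := ⟨(hq 0).ne'⟩
    simp only [pow_zero, mul_one, Finset.range_zero, Finset.prod_empty, one_mul]
    rcases (ipts N).eq_empty_or_nonempty with h | ⟨x, hx⟩
    · rw [h]
      simp
    · have h1 : (ipts N).ncard ≤ 1 := by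
        rw [Set.ncard_le_one hfin]
        intro a _ b _
        exact Subsingleton.elim _ _
      have h2 : 0 < (hit (q 0) N).ncard := by
        rw [Set.ncard_pos (Set.toFinite _)]
        exact ⟨_, x, hx, rfl⟩
      omega
  | succ m ih =>
    intro N hN hfin hflag
    have h1 : (ipts N).ncard * (q m) ^ m ≤
        (∏ i ∈ Finset.range m, q i) * (hit (q m) N).ncard := by
      apply fiber N hfin (q m) (hq m)
      · intro z hz z' hz' h
        exact hflag m (Nat.lt_succ_self m) z hz z' hz' h (Fin.last m) (by simp)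
      · intro t
        apply ih (fun i hi => hgood i (Nat.lt_succ_of_lt hi)) (slice1 N t) (slice1_convex hN t)
          (ipts_slice1_finite hfin t)
        intro i hi x hx y hy h j hij
        have h2 := hflag i (Nat.lt_succ_of_lt hi) _ (mem_ipts_slice1.1 hx) _
          (mem_ipts_slice1.1 hy) (by rw [red_snoc, red_snoc, h]) j.castSucc (by simpa using hij)
        simpa using h2
    have h2 := good_compare2 hP N hN hfin (q (m + 1)) (q m) (hq _) (hq _)
      (hgood m (Nat.lt_succ_self m))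
    have hpos : 0 < q m ^ (m + 1) := Nat.pow_pos (hq m)
    apply Nat.le_of_mul_le_mul_right _ hpos
    calc (ipts N).ncard * q (m + 1) ^ (m + 1) * q m ^ (m + 1)
        = ((ipts N).ncard * q m ^ m) * q m * q (m + 1) ^ (m + 1) := by ring
      _ ≤ ((∏ i ∈ Finset.range m, q i) * (hit (q m) N).ncard) * q m * q (m + 1) ^ (m + 1) :=
          Nat.mul_le_mul_right _ (Nat.mul_le_mul_right _ h1)
      _ = ((∏ i ∈ Finset.range m, q i) * q m) * ((hit (q m) N).ncard * q (m + 1) ^ (m + 1)) := by
          ring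
      _ ≤ ((∏ i ∈ Finset.range m, q i) * q m) * ((hit (q (m + 1)) N).ncard * q m ^ (m + 1)) :=
          Nat.mul_le_mul_left _ h2
      _ = _ := by
          rw [Finset.prod_range_succ]
          ring

/-- the last step: `Q` is the last modulus for the slices, `hw` the bound of the winding lemma -/
theorem flag2 (hP : PLM.Planar) (m : ℕ) (n : Fin (m + 1) → ℕ) (hn : ∀ i, 0 < n i) (Q : ℕ)
    (hQ : 0 < Q)
    (hgood : ∀ i j : Fin (m + 1), (j : ℕ) = i + 1 → (j : ℕ) < m → Good2 (i + 1) (n i) (n j))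
    (hgoodQ : ∀ i : Fin (m + 1), (i : ℕ) + 1 = m → Good2 m (n i) Q)
    (N : Set (Fin (m + 1) → ℝ)) (hN : Convex ℝ N) (hfin : (ipts N).Finite)
    (hflag : ∀ i : Fin (m + 1), (i : ℕ) < m → ∀ x ∈ ipts N, ∀ y ∈ ipts N, ∀ z : Fin (m + 1) → ℤ,
      x - y = (n i : ℤ) • z → ∀ j : Fin (m + 1), i ≤ j → x j = y j)
    (hlast : ∀ x ∈ ipts N, ∀ y ∈ ipts N, ∀ z : Fin (m + 1) → ℤ, x - y = (Q : ℤ) • z →
      x (Fin.last m) = y (Fin.last m))
    (hw : (hit Q N).ncard ≤ Q ^ m * n (Fin.last m)) :
    (ipts N).ncard ≤ ∏ i, n i := by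
  classical
  let q : ℕ → ℕ := fun i => if h : i < m then n ⟨i, by omega⟩ else Q
  have hq : ∀ i, 0 < q i := by
    intro i
    simp only [q]
    split_ifs with h
    · exact hn _
    · exact hQ
  have hqm : q m = Q := by simp [q]
  have hqi : ∀ (i : ℕ) (h : i < m), q i = n ⟨i, by omega⟩ := by
    intro i h
    simp only [q, dif_pos h]
  have hg : ∀ i < m, Good2 (i + 1) (q i) (q (i + 1)) := by
    intro i hi
    by_cases h : i + 1 < m
    · rw [hqi i hi, hqi (i + 1) h]
      exact hgood ⟨i, by omega⟩ ⟨i + 1, by omega⟩ rfl h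
    · have e : i + 1 = m := by omega
      rw [hqi i hi, e, hqm]
      exact hgoodQ ⟨i, by omega⟩ e
  have h1 : (ipts N).ncard * Q ^ m ≤ (∏ i ∈ Finset.range m, q i) * (hit Q N).ncard := by
    apply fiber N hfin Q hQ
    · intro z hz z' hz' h
      obtain ⟨u, hu⟩ := red_eq_iff.1 h
      exact hlast z hz z' hz' u hu
    · intro t
      have h2 := flag_aux2 hP q hq m hg (slice1 N t) (slice1_convex hN t)
        (ipts_slice1_finite hfin t) (by
        intro i hi x hx y hy h j hij
        have h3 : red (q i) (Fin.snoc x t : Fin (m + 1) → ℤ) =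
            red (q i) (Fin.snoc y t : Fin (m + 1) → ℤ) := by rw [red_snoc, red_snoc, h]
        obtain ⟨u, hu⟩ := red_eq_iff.1 h3
        rw [hqi i hi] at hu
        have h4 := hflag ⟨i, by omega⟩ hi _ (mem_ipts_slice1.1 hx) _ (mem_ipts_slice1.1 hy) u hu
          j.castSucc (by
            show i ≤ ((j.castSucc : Fin (m + 1)) : ℕ)
            simpa using hij)
        simpa using h4)
      rw [hqm] at h2
      exact h2
  have hprod : (∏ i ∈ Finset.range m, q i) * n (Fin.last m) = ∏ i, n i := by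
    rw [Fin.prod_univ_castSucc, ← Fin.prod_univ_eq_prod_range]
    congr 1
    apply Finset.prod_congr rfl
    intro i _
    rw [hqi i i.isLt]
    rfl
  have hpos : 0 < Q ^ m := Nat.pow_pos hQ
  apply Nat.le_of_mul_le_mul_right _ hpos
  calc (ipts N).ncard * Q ^ m ≤ (∏ i ∈ Finset.range m, q i) * (hit Q N).ncard := h1
    _ ≤ (∏ i ∈ Finset.range m, q i) * (Q ^ m * n (Fin.last m)) := Nat.mul_le_mul_left _ hw
    _ = ((∏ i ∈ Finset.range m, q i) * n (Fin.last m)) * Q ^ m := by ring
    _ = (∏ i, n i) * Q ^ m := by rw [hprod]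

end Pool.Agent.PLMF
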