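import Pool.Agent.PLM.Def

/-!
Invariance under unimodular maps.
-/

namespace Pool.Agent.PLM

/-- the linear map with integer entries -/
def lin (a b c d : ℤ) (z : ℤ × ℤ) : ℤ × ℤ := (a * z.1 + b * z.2, c * z.1 + d * z.2)

/-- the real linear map -/
noncomputable def linR (a b c d : ℤ) : (ℝ × ℝ) →ₗ[ℝ] (ℝ × ℝ) where
  toFun x := (a * x.1 + b * x.2, c * x.1 + d * x.2)
  map_add' x y := by ext <;> simp <;> ring
  map_smul' r x := by ext <;> simp <;> ring

theorem linR_rp (a b c d : ℤ) (z : ℤ × ℤ) : linR a b c d (rp z) = rp (lin a b c d z) := by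
  ext <;> simp [linR, lin, rp]

theorem lin_inv {a b c d : ℤ} (h : a * d - b * c = 1 ∨ a * d - b * c = -1) (z : ℤ × ℤ) :
    lin ((a * d - b * c) * d) (-((a * d - b * c) * b)) (-((a * d - b * c) * c))
      ((a * d - b * c) * a) (lin a b c d z) = z := by
  have h2 : (a * d - b * c) * (a * d - b * c) = 1 := by
    rcases h with h | h <;> rw [h] <;> norm_num
  obtain ⟨x, y⟩ := z
  simp only [lin, Prod.mk.injEq]
  constructor
  · linear_combination x * h2
  · linear_combination y * h2

theorem lin_inv' {a b c d : ℤ} (h : a * d - b * c = 1 ∨ a * d - b * c = -1) (z : ℤ × ℤ) :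
    lin a b c d (lin ((a * d - b * c) * d) (-((a * d - b * c) * b)) (-((a * d - b * c) * c))
      ((a * d - b * c) * a) z) = z := by
  have h2 : (a * d - b * c) * (a * d - b * c) = 1 := by
    rcases h with h | h <;> rw [h] <;> norm_num
  obtain ⟨x, y⟩ := z
  simp only [lin, Prod.mk.injEq]
  constructor
  · linear_combination x * h2
  · linear_combination y * h2

theorem linR_inv {a b c d : ℤ} (h : a * d - b * c = 1 ∨ a * d - b * c = -1) (x : ℝ × ℝ) :
    linR ((a * d - b * c) * d) (-((a * d - b * c) * b)) (-((a * d - b * c) * c))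
      ((a * d - b * c) * a) (linR a b c d x) = x := by
  have h2 : ((a : ℝ) * d - b * c) * (a * d - b * c) = 1 := by
    have : (a * d - b * c) * (a * d - b * c) = 1 := by
      rcases h with h | h <;> rw [h] <;> norm_num
    exact_mod_cast this
  obtain ⟨x, y⟩ := x
  simp only [linR, LinearMap.coe_mk, AddHom.coe_mk, Prod.mk.injEq]
  push_cast
  constructor
  · linear_combination x * h2
  · linear_combination y * h2

theorem lin_inj {a b c d : ℤ} (h : a * d - b * c = 1 ∨ a * d - b * c = -1) :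
    Function.Injective (lin a b c d) := by
  intro x y hxy
  rw [← lin_inv h x, ← lin_inv h y, hxy]

/-- the image of a finite set -/
def im (a b c d : ℤ) (N : Finset (ℤ × ℤ)) : Finset (ℤ × ℤ) := N.image (lin a b c d)

theorem mem_im {a b c d : ℤ} (h : a * d - b * c = 1 ∨ a * d - b * c = -1) {N : Finset (ℤ × ℤ)}
    {z : ℤ × ℤ} : lin a b c d z ∈ im a b c d N ↔ z ∈ N := by
  unfold im
  rw [Finset.mem_image]
  constructor
  · rintro ⟨w, hw, e⟩
    rw [← lin_inj h e]
    exact hw
  · intro hz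
    exact ⟨z, hz, rfl⟩

theorem mem_im' {a b c d : ℤ} (h : a * d - b * c = 1 ∨ a * d - b * c = -1) {N : Finset (ℤ × ℤ)}
    {z w : ℤ × ℤ} (hw : w ∈ N) (e1 : z.1 = a * w.1 + b * w.2) (e2 : z.2 = c * w.1 + d * w.2) :
    z ∈ im a b c d N := by
  have : z = lin a b c d w := by
    ext
    · exact e1
    · exact e2
  rw [this, mem_im h]
  exact hw

theorem card_im {a b c d : ℤ} (h : a * d - b * c = 1 ∨ a * d - b * c = -1) (N : Finset (ℤ × ℤ)) :
    (im a b c d N).card = N.card :=
  Finset.card_image_of_injective _ (lin_inj h)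

theorem LC_im {a b c d : ℤ} (h : a * d - b * c = 1 ∨ a * d - b * c = -1) {N : Finset (ℤ × ℤ)}
    (hN : LC N) : LC (im a b c d N) := by
  intro z hz
  have e : hl (im a b c d N) = linR a b c d '' hl N := by
    unfold hl
    rw [LinearMap.image_convexHull]
    congr 1
    ext x
    constructor
    · rintro ⟨w, hw, rfl⟩
      obtain ⟨v, hv, rfl⟩ := Finset.mem_image.1 (Finset.mem_coe.1 hw)
      exact ⟨rp v, ⟨v, hv, rfl⟩, linR_rp a b c d v⟩
    · rintro ⟨_, ⟨v, hv, rfl⟩, rfl⟩
      exact ⟨lin a b c d v, Finset.mem_coe.2 (Finset.mem_image.2 ⟨v, hv, rfl⟩),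
        (linR_rp a b c d v).symm⟩
  rw [e] at hz
  obtain ⟨x, hx, hxz⟩ := hz
  have e1 : z = lin a b c d (lin ((a * d - b * c) * d) (-((a * d - b * c) * b))
      (-((a * d - b * c) * c)) ((a * d - b * c) * a) z) := (lin_inv' h z).symm
  rw [e1, mem_im h]
  apply hN
  rw [← linR_rp, ← hxz, linR_inv h]
  exact hx

theorem red_lin {a b c d : ℤ} (h : a * d - b * c = 1 ∨ a * d - b * c = -1) {n : ℕ} {v w : ℤ × ℤ} :
    red n (lin a b c d v) = red n (lin a b c d w) ↔ red n v = red n w := by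
  have key : ∀ a b c d : ℤ, ∀ v w : ℤ × ℤ, red n v = red n w →
      red n (lin a b c d v) = red n (lin a b c d w) := by
    intro a b c d v w h
    rw [red_eq_iff] at h ⊢
    obtain ⟨s, t, hs, ht⟩ := h
    refine ⟨a * s + b * t, c * s + d * t, ?_, ?_⟩
    · simp only [lin, hs, ht]; ring
    · simp only [lin, hs, ht]; ring
  constructor
  · intro hh
    have := key ((a * d - b * c) * d) (-((a * d - b * c) * b)) (-((a * d - b * c) * c))
      ((a * d - b * c) * a) _ _ hh
    rwa [lin_inv h, lin_inv h] at this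
  · exact key a b c d v w

theorem QI_im {a b c d : ℤ} (h : a * d - b * c = 1 ∨ a * d - b * c = -1) {N : Finset (ℤ × ℤ)}
    {q : ℕ} (hN : QI q N) : QI q (im a b c d N) := by
  intro v hv w hw hvw
  obtain ⟨v', hv', rfl⟩ := Finset.mem_image.1 hv
  obtain ⟨w', hw', rfl⟩ := Finset.mem_image.1 hw
  rw [red_lin h] at hvw
  rw [hN v' hv' w' hw' hvw]

theorem cls_im {a b c d : ℤ} (h : a * d - b * c = 1 ∨ a * d - b * c = -1) (N : Finset (ℤ × ℤ))
    (n : ℕ) : (cls n (im a b c d N)).card = (cls n N).card := by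
  classical
  symm
  apply Finset.card_bij (fun c' hc' => red n (lin a b c d (mem_cls.1 hc').choose))
  · intro c' hc'
    have hs := (mem_cls.1 hc').choose_spec
    exact mem_cls.2 ⟨_, (mem_im h).2 hs.1, rfl⟩
  · intro c1 hc1 c2 hc2 e
    have h1 := (mem_cls.1 hc1).choose_spec
    have h2 := (mem_cls.1 hc2).choose_spec
    rw [red_lin h] at e
    rw [← h1.2, ← h2.2, e]
  · intro e he
    obtain ⟨z, hz, rfl⟩ := mem_cls.1 he
    obtain ⟨w, hw, rfl⟩ := Finset.mem_image.1 hz
    have hc : red n w ∈ cls n N := mem_cls.2 ⟨w, hw, rfl⟩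
    refine ⟨red n w, hc, ?_⟩
    rw [red_lin h]
    exact (mem_cls.1 hc).choose_spec.2

end Pool.Agent.PLM
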