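import Pool.Agent.PLM.Chord
import Pool.Agent.PLM.F4

/-!
The directions of `p`-chords of a `(p+1)`-injective lattice convex set.
-/

namespace Pool.Agent.PLM

/-- there is a `p`-chord with direction `(a, b)` -/
def Dp (p : ℕ) (N : Finset (ℤ × ℤ)) (a b : ℤ) : Prop := ∃ v ∈ N, (v.1 + p * a, v.2 + p * b) ∈ N

/-- the real version -/
def Wp (p : ℕ) (N : Finset (ℤ × ℤ)) (x y : ℝ) : Prop :=
  ∃ ξ ∈ hl N, (ξ.1 + p * x, ξ.2 + p * y) ∈ hl N

theorem Dp.wp {p : ℕ} {N : Finset (ℤ × ℤ)} {a b : ℤ} (h : Dp p N a b) : Wp p N a b := by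
  obtain ⟨v, hv, hw⟩ := h
  refine ⟨rp v, subset_hl hv, ?_⟩
  have := subset_hl hw
  simpa [rp] using this

theorem Dp.neg {p : ℕ} {N : Finset (ℤ × ℤ)} {a b : ℤ} (h : Dp p N a b) : Dp p N (-a) (-b) := by
  obtain ⟨v, hv, hw⟩ := h
  refine ⟨_, hw, ?_⟩
  have : ((v.1 + p * a, v.2 + p * b).1 + (p : ℤ) * -a, (v.1 + p * a, v.2 + p * b).2 +
      (p : ℤ) * -b) = v := by
    ext
    · simp
    · simp
  rw [this]
  exact hv

theorem wp_dp {p : ℕ} {N : Finset (ℤ × ℤ)} (hN : LC N) (hp : 0 < p) {a b : ℤ}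
    (hab : ¬(a = 0 ∧ b = 0)) (h : Wp p N a b) : Dp p N a b := by
  obtain ⟨ξ, hξ, hη⟩ := h
  have hp' : (p : ℤ) ≠ 0 := by exact_mod_cast hp.ne'
  obtain ⟨v, hv, hw, _⟩ := chord hN (p * a) (p * b)
    (by
      rintro ⟨h1, h2⟩
      apply hab
      constructor
      · rcases mul_eq_zero.1 h1 with h | h
        · exact absurd h hp'
        · exact h
      · rcases mul_eq_zero.1 h2 with h | h
        · exact absurd h hp'
        · exact h) ξ hξ (by push_cast; exact hη)
  exact ⟨v, hv, hw⟩

/-- combination of two directions -/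
theorem wp_comb {p : ℕ} {N : Finset (ℤ × ℤ)} {x y x' y' : ℝ} (h : Wp p N x y)
    (h' : Wp p N x' y') (s t : ℝ) (hs : 0 ≤ s) (ht : 0 ≤ t) (hst : s + t ≤ 1) :
    Wp p N (s * x + t * x') (s * y + t * y') := by
  obtain ⟨ξ, hξ, hξ'⟩ := h
  obtain ⟨η, hη, hη'⟩ := h'
  have hc := hl_convex N
  have key : ∀ A B C : ℝ × ℝ, A ∈ hl N → B ∈ hl N → C ∈ hl N →
      ((1 - s - t) * A.1 + s * B.1 + t * C.1, (1 - s - t) * A.2 + s * B.2 + t * C.2) ∈ hl N := by
    intro A B C hA hB hC
    by_cases h1 : s = 1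
    · have ht0 : t = 0 := by linarith
      have : ((1 - s - t) * A.1 + s * B.1 + t * C.1, (1 - s - t) * A.2 + s * B.2 + t * C.2) = B := by
        rw [h1, ht0]
        ext <;> simp
      rw [this]
      exact hB
    · have hs1 : 0 < 1 - s := by
        have : s ≤ 1 := by linarith
        rcases this.lt_or_eq with h | h
        · linarith
        · exact absurd h h1
      have hAC := hc hA hC (a := (1 - s - t) / (1 - s)) (b := t / (1 - s))
        (div_nonneg (by linarith) hs1.le) (div_nonneg ht hs1.le) (by field_simp; ring)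
      have hf := hc hAC hB (a := 1 - s) (b := s) hs1.le hs (by ring)
      have : ((1 - s - t) * A.1 + s * B.1 + t * C.1, (1 - s - t) * A.2 + s * B.2 + t * C.2) =
          (1 - s) • (((1 - s - t) / (1 - s)) • A + (t / (1 - s)) • C) + s • B := by
        ext
        · simp only [Prod.fst_add, Prod.smul_fst, smul_eq_mul]
          field_simp
          ring
        · simp only [Prod.snd_add, Prod.smul_snd, smul_eq_mul]
          field_simp
          ring
      rw [this]
      exact hf
  refine ⟨_, key ξ ξ η hξ hξ hη, ?_⟩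
  have h2 := key ξ _ _ hξ hξ' hη'
  have e : (((1 - s - t) * ξ.1 + s * ξ.1 + t * η.1, (1 - s - t) * ξ.2 + s * ξ.2 + t * η.2).1 +
      p * (s * x + t * x'),
      ((1 - s - t) * ξ.1 + s * ξ.1 + t * η.1, (1 - s - t) * ξ.2 + s * ξ.2 + t * η.2).2 +
      p * (s * y + t * y')) =
      ((1 - s - t) * ξ.1 + s * (ξ.1 + p * x, ξ.2 + p * y).1 + t * (η.1 + p * x', η.2 + p * y').1,
       (1 - s - t) * ξ.2 + s * (ξ.1 + p * x, ξ.2 + p * y).2 +
        t * (η.1 + p * x', η.2 + p * y').2) := by
    ext
    · simp only; ring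
    · simp only; ring
  rw [e]
  exact h2

/-- no long chords -/
theorem no_q {p : ℕ} {N : Finset (ℤ × ℤ)} (hN : LC N) (hQ : QI (p + 1) N) {a b : ℤ}
    (hab : ¬(a = 0 ∧ b = 0)) {x y : ℝ} (h : Wp p N x y) (e1 : (p : ℝ) * x = (p + 1) * a)
    (e2 : (p : ℝ) * y = (p + 1) * b) : False := by
  obtain ⟨ξ, hξ, hη⟩ := h
  rw [e1, e2] at hη
  have hp' : ((p + 1 : ℕ) : ℤ) ≠ 0 := by positivity
  obtain ⟨v, hv, hw, _⟩ := chord hN (((p + 1 : ℕ) : ℤ) * a) (((p + 1 : ℕ) : ℤ) * b)
    (by
      rintro ⟨h1, h2⟩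
      apply hab
      constructor
      · rcases mul_eq_zero.1 h1 with h | h
        · exact absurd h hp'
        · exact h
      · rcases mul_eq_zero.1 h2 with h | h
        · exact absurd h hp'
        · exact h) ξ hξ (by push_cast; exact hη)
  have := hQ _ hv _ hw (red_eq_iff.2 ⟨a, b, rfl, rfl⟩)
  have h1 := congrArg Prod.fst this
  have h2 := congrArg Prod.snd this
  simp only at h1 h2
  apply hab
  constructor
  · have : ((p + 1 : ℕ) : ℤ) * a = 0 := by linarith
    rcases mul_eq_zero.1 this with h | h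
    · exact absurd h hp'
    · exact h
  · have : ((p + 1 : ℕ) : ℤ) * b = 0 := by linarith
    rcases mul_eq_zero.1 this with h | h
    · exact absurd h hp'
    · exact h

/-- directions of chords are primitive -/
theorem no_mult {p : ℕ} (hp : 0 < p) {N : Finset (ℤ × ℤ)} (hN : LC N) (hQ : QI (p + 1) N)
    {a b k : ℤ} (hab : ¬(a = 0 ∧ b = 0)) (hk : 2 ≤ k) (h : Dp p N (k * a) (k * b)) : False := by
  have hpR : (1 : ℝ) ≤ p := by exact_mod_cast hp
  have hkR : (2 : ℝ) ≤ k := by exact_mod_cast hk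
  have hw := h.wp
  have h2 := wp_comb hw hw (((p : ℝ) + 1) / (p * k)) 0 (by positivity) le_rfl (by
    rw [add_zero, div_le_one (by positivity)]
    nlinarith)
  refine no_q hN hQ hab h2 ?_ ?_
  · push_cast
    field_simp
    ring
  · push_cast
    field_simp
    ring

/-- if `u`, `v` and `a u + b v` are chord directions, `a, b >= 1`, so is `u + v` -/
theorem dp_sum {p : ℕ} (hp : 0 < p) {N : Finset (ℤ × ℤ)} (hN : LC N) {u1 u2 v1 v2 a b : ℤ}
    (ha : 1 ≤ a) (hb : 1 ≤ b) (hu : Dp p N u1 u2) (hv : Dp p N v1 v2)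
    (hw : Dp p N (a * u1 + b * v1) (a * u2 + b * v2)) (hne : ¬(u1 + v1 = 0 ∧ u2 + v2 = 0)) :
    Dp p N (u1 + v1) (u2 + v2) := by
  have haR : (1 : ℝ) ≤ a := by exact_mod_cast ha
  have hbR : (1 : ℝ) ≤ b := by exact_mod_cast hb
  apply wp_dp hN hp hne
  rcases le_total a b with h | h
  · have hR : (a : ℝ) ≤ b := by exact_mod_cast h
    have h2 := wp_comb hw.wp hu.wp (1 / b) (1 - a / b) (by positivity)
      (by rw [sub_nonneg, div_le_one (by linarith)]; exact hR) (by
        have : (1 : ℝ) / b ≤ a / b := by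
          apply div_le_div_of_nonneg_right haR (by linarith)
        linarith)
    have e1 : (1 / (b : ℝ)) * ((a * u1 + b * v1 : ℤ) : ℝ) + (1 - a / b) * (u1 : ℝ) =
        ((u1 + v1 : ℤ) : ℝ) := by
      push_cast
      field_simp
      ring
    have e2 : (1 / (b : ℝ)) * ((a * u2 + b * v2 : ℤ) : ℝ) + (1 - a / b) * (u2 : ℝ) =
        ((u2 + v2 : ℤ) : ℝ) := by
      push_cast
      field_simp
      ring
    rw [e1, e2] at h2
    exact h2
  · have hR : (b : ℝ) ≤ a := by exact_mod_cast h
    have h2 := wp_comb hw.wp hv.wp (1 / a) (1 - b / a) (by positivity)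
      (by rw [sub_nonneg, div_le_one (by linarith)]; exact hR) (by
        have : (1 : ℝ) / a ≤ b / a := by
          apply div_le_div_of_nonneg_right hbR (by linarith)
        linarith)
    have e1 : (1 / (a : ℝ)) * ((a * u1 + b * v1 : ℤ) : ℝ) + (1 - b / a) * (v1 : ℝ) =
        ((u1 + v1 : ℤ) : ℝ) := by
      push_cast
      field_simp
      ring
    have e2 : (1 / (a : ℝ)) * ((a * u2 + b * v2 : ℤ) : ℝ) + (1 - b / a) * (v2 : ℝ) =
        ((u2 + v2 : ℤ) : ℝ) := by
      push_cast
      field_simp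
      ring
    rw [e1, e2] at h2
    exact h2

theorem dp_im {A B C D : ℤ} (h : A * D - B * C = 1 ∨ A * D - B * C = -1) {p : ℕ}
    {N : Finset (ℤ × ℤ)} {a b a' b' : ℤ} (hd : Dp p N a b) (e1 : a' = A * a + B * b)
    (e2 : b' = C * a + D * b) : Dp p (im A B C D N) a' b' := by
  obtain ⟨v, hv, hw⟩ := hd
  refine ⟨lin A B C D v, (mem_im h).2 hv, ?_⟩
  refine mem_im' h hw ?_ ?_
  · simp only [lin, e1]; ring
  · simp only [lin, e2]; ring

/-- the inequality for a `(p+1)`-injective set -/
def Good (p : ℕ) (N : Finset (ℤ × ℤ)) : Prop := p ^ 2 * N.card ≤ (p + 1) ^ 2 * (cls p N).card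

theorem card_le_of_QI {q : ℕ} (hq : 0 < q) {N : Finset (ℤ × ℤ)} (hQ : QI q N) :
    N.card ≤ q ^ 2 := by
  classical
  have : NeZero q := ⟨hq.ne'⟩
  have h := Finset.card_le_card_of_injOn (s := N)
    (t := (Finset.univ : Finset (ZMod q × ZMod q))) (red q) (fun _ _ => Finset.mem_coe.2
      (Finset.mem_univ _))
    (fun v hv w hw e => hQ v hv w hw e)
  rw [Finset.card_univ, Fintype.card_prod, ZMod.card] at h
  rw [pow_two]
  exact h

theorem good_of_full {p : ℕ} (hp : 0 < p) {N : Finset (ℤ × ℤ)} (hQ : QI (p + 1) N)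
    (hF : Full p N) : Good p N := by
  classical
  have : NeZero p := ⟨hp.ne'⟩
  have h1 : cls p N = Finset.univ := Finset.eq_univ_iff_forall.2 hF
  unfold Good
  rw [h1, Finset.card_univ, Fintype.card_prod, ZMod.card]
  have := card_le_of_QI (by omega : 0 < p + 1) hQ
  calc p ^ 2 * N.card ≤ p ^ 2 * (p + 1) ^ 2 := Nat.mul_le_mul_left _ this
    _ = (p + 1) ^ 2 * (p * p) := by ring

theorem good_of_im {a b c d : ℤ} (h : a * d - b * c = 1 ∨ a * d - b * c = -1)
    {N : Finset (ℤ × ℤ)} {p : ℕ} (hF : Good p (im a b c d N)) : Good p N := by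
  unfold Good at hF ⊢
  rwa [card_im h, cls_im h] at hF

section
variable (hB : PartB) {p : ℕ} (hp : 2 ≤ p)
include hB hp

theorem L3 {N : Finset (ℤ × ℤ)} (hN : LC N) (hQ : QI (p + 1) N) (h10 : Dp p N 1 0)
    (h01 : Dp p N 0 1) (h11 : Dp p N 1 1) : Good p N := by
  by_cases hD : Dir3 p N
  · exact hB p N (by omega) hN hQ hD
  have hF4 : ∀ M : Finset (ℤ × ℤ), LC M → QI (p + 1) M → Dp p M 1 1 → Dp p M 1 (-1) →
      Good p M := by
    intro M hM hQM h1 h2
    apply good_of_full (by omega) hQM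
    obtain ⟨v, hv, hv'⟩ := h1
    obtain ⟨w, hw, hw'⟩ := h2
    refine F4d hp hM hQM v.1 v.2 (w.1 - v.1) (w.2 - v.2 - p) hv (by simpa using hv') ?_ ?_
    · have : (v.1 + (w.1 - v.1), v.2 + p + (w.2 - v.2 - p)) = w := by
        ext
        · simp
        · simp
      rw [this]
      exact hw
    · have : (v.1 + (w.1 - v.1) + (p : ℤ), v.2 + (w.2 - v.2 - p)) =
        (w.1 + p * 1, w.2 + p * -1) := by
        ext
        · simp
        · simp; ring
      rw [this]
      exact hw'
  -- a direction which is not in the list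
  have hex : ∃ a b : ℤ, Dp p N a b ∧ ¬((a = 0 ∧ b = 0) ∨ (a = 1 ∧ b = 0) ∨ (a = -1 ∧ b = 0) ∨
      (a = 0 ∧ b = 1) ∨ (a = 0 ∧ b = -1) ∨ (a = 1 ∧ b = 1) ∨ (a = -1 ∧ b = -1)) := by
    unfold Dir3 at hD
    push Not at hD
    obtain ⟨v, hv, a, b, hw, hne⟩ := hD
    refine ⟨a, b, ⟨v, hv, hw⟩, ?_⟩
    push Not
    exact hne
  have hex' : ∃ a b : ℤ, Dp p N a b ∧ 0 ≤ a ∧ ¬((a = 0 ∧ b = 0) ∨ (a = 1 ∧ b = 0) ∨
      (a = 0 ∧ b = 1) ∨ (a = 0 ∧ b = -1) ∨ (a = 1 ∧ b = 1)) := by
    obtain ⟨a, b, h1, h2⟩ := hex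
    rcases le_total 0 a with h | h
    · exact ⟨a, b, h1, h, by omega⟩
    · exact ⟨-a, -b, h1.neg, by omega, by omega⟩
  obtain ⟨a, b, hab, ha, hne⟩ := hex'
  have hp0 : 0 < p := by omega
  rcases lt_trichotomy b 0 with hb | hb | hb
  · -- b < 0
    rcases eq_or_lt_of_le ha with h0 | h0
    · -- a = 0
      exfalso
      subst h0
      refine no_mult hp0 hN hQ (a := 0) (b := -1) (k := -b) (by omega) (by omega) ?_
      have e1 : -b * 0 = (0 : ℤ) := by ring
      have e2 : -b * -1 = b := by ring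
      rw [e1, e2]
      exact hab
    · -- a > 0 > b
      have h0m : Dp p N 0 (-1) := by simpa using h01.neg
      have h2 : Dp p N (1 + 0) (0 + -1) := by
        refine dp_sum hp0 hN (a := a) (b := -b) (by omega) (by omega) h10 h0m ?_ (by omega)
        have e1 : a * 1 + -b * 0 = a := by ring
        have e2 : a * 0 + -b * -1 = b := by ring
        rw [e1, e2]
        exact hab
      exact hF4 N hN hQ h11 (by simpa using h2)
  · -- b = 0
    exfalso
    subst hb
    refine no_mult hp0 hN hQ (a := 1) (b := 0) (k := a) (by omega) (by omega) ?_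
    rw [mul_one, mul_zero]
    exact hab
  · rcases eq_or_lt_of_le ha with h0 | h0
    · exfalso
      subst h0
      refine no_mult hp0 hN hQ (a := 0) (b := 1) (k := b) (by omega) (by omega) ?_
      rw [mul_one, mul_zero]
      exact hab
    · rcases lt_trichotomy a b with h | h | h
      · -- a < b
        have h2 : Dp p N (0 + 1) (1 + 1) := by
          refine dp_sum hp0 hN (a := b - a) (b := a) (by omega) (by omega) h01 h11 ?_ (by omega)
          have e1 : (b - a) * 0 + a * 1 = a := by ring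
          have e2 : (b - a) * 1 + a * 1 = b := by ring
          rw [e1, e2]
          exact hab
        have hdet : (1 : ℤ) * 1 - 0 * (-1) = 1 ∨ (1 : ℤ) * 1 - 0 * (-1) = -1 := by left; norm_num
        apply good_of_im hdet
        apply hF4 _ (LC_im hdet hN) (QI_im hdet hQ)
        · exact dp_im hdet h2 (by norm_num) (by norm_num)
        · exact dp_im hdet h10 (by norm_num) (by norm_num)
      · exfalso
        subst h
        refine no_mult hp0 hN hQ (a := 1) (b := 1) (k := a) (by omega) (by omega) ?_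
        rw [mul_one]
        exact hab
      · -- b < a
        have h2 : Dp p N (1 + 1) (0 + 1) := by
          refine dp_sum hp0 hN (a := a - b) (b := b) (by omega) (by omega) h10 h11 ?_ (by omega)
          have e1 : (a - b) * 1 + b * 1 = a := by ring
          have e2 : (a - b) * 0 + b * 1 = b := by ring
          rw [e1, e2]
          exact hab
        have hdet : (0 : ℤ) * (-1) - 1 * 1 = 1 ∨ (0 : ℤ) * (-1) - 1 * 1 = -1 := by right; norm_num
        apply good_of_im hdet
        apply hF4 _ (LC_im hdet hN) (QI_im hdet hQ)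
        · exact dp_im hdet h2 (by norm_num) (by norm_num)
        · exact dp_im hdet h01 (by norm_num) (by norm_num)

theorem L2 {N : Finset (ℤ × ℤ)} (hN : LC N) (hQ : QI (p + 1) N) (h10 : Dp p N 1 0)
    (h01 : Dp p N 0 1) : Good p N := by
  have hp0 : 0 < p := by omega
  by_cases hex : ∃ a b : ℤ, Dp p N a b ∧ 0 < a ∧ b ≠ 0
  · obtain ⟨a, b, hab, ha, hb⟩ := hex
    rcases lt_or_gt_of_ne hb with hb | hb
    · have hdet : (1 : ℤ) * (-1) - 0 * 0 = 1 ∨ (1 : ℤ) * (-1) - 0 * 0 = -1 := by right; norm_num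
      apply good_of_im hdet
      have h1 : Dp p (im 1 0 0 (-1) N) 1 0 := dp_im hdet h10 (by norm_num) (by norm_num)
      have h2 : Dp p (im 1 0 0 (-1) N) 0 1 := dp_im hdet h01.neg (by norm_num) (by norm_num)
      have h3 : Dp p (im 1 0 0 (-1) N) a (-b) := dp_im hdet hab (by ring) (by ring)
      have h4 : Dp p (im 1 0 0 (-1) N) (1 + 0) (0 + 1) := by
        refine dp_sum hp0 (LC_im hdet hN) (a := a) (b := -b) (by omega) (by omega) h1 h2 ?_
          (by omega)
        have e1 : a * 1 + -b * 0 = a := by ring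
        have e2 : a * 0 + -b * 1 = -b := by ring
        rw [e1, e2]
        exact h3
      exact L3 hB hp (LC_im hdet hN) (QI_im hdet hQ) h1 h2 (by simpa using h4)
    · have h4 : Dp p N (1 + 0) (0 + 1) := by
        refine dp_sum hp0 hN (a := a) (b := b) (by omega) (by omega) h10 h01 ?_ (by omega)
        have e1 : a * 1 + b * 0 = a := by ring
        have e2 : a * 0 + b * 1 = b := by ring
        rw [e1, e2]
        exact hab
      exact L3 hB hp hN hQ h10 h01 (by simpa using h4)
  · have hall : ∀ a b : ℤ, Dp p N a b → a = 0 ∨ b = 0 := by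
      intro a b hab
      by_contra hcon
      push Not at hcon
      rcases lt_or_gt_of_ne hcon.1 with h | h
      · exact hex ⟨-a, -b, hab.neg, by omega, by omega⟩
      · exact hex ⟨a, b, hab, h, hcon.2⟩
    apply hB p N hp0 hN hQ
    intro v hv a b hw
    have hab : Dp p N a b := ⟨v, hv, hw⟩
    have h1 : ¬(2 ≤ a ∧ b = 0) := by
      rintro ⟨h, rfl⟩
      refine no_mult hp0 hN hQ (a := 1) (b := 0) (k := a) (by omega) h ?_
      rw [mul_one, mul_zero]
      exact hab
    have h2 : ¬(a ≤ -2 ∧ b = 0) := by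
      rintro ⟨h, rfl⟩
      refine no_mult hp0 hN hQ (a := -1) (b := 0) (k := -a) (by omega) (by omega) ?_
      have e1 : -a * -1 = a := by ring
      rw [e1, mul_zero]
      exact hab
    have h3 : ¬(2 ≤ b ∧ a = 0) := by
      rintro ⟨h, rfl⟩
      refine no_mult hp0 hN hQ (a := 0) (b := 1) (k := b) (by omega) h ?_
      rw [mul_one, mul_zero]
      exact hab
    have h4 : ¬(b ≤ -2 ∧ a = 0) := by
      rintro ⟨h, rfl⟩
      refine no_mult hp0 hN hQ (a := 0) (b := -1) (k := -b) (by omega) (by omega) ?_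
      have e1 : -b * -1 = b := by ring
      rw [e1, mul_zero]
      exact hab
    rcases hall a b hab with h | h <;> omega

theorem L1 {N : Finset (ℤ × ℤ)} (hN : LC N) (hQ : QI (p + 1) N) (h10 : Dp p N 1 0) :
    Good p N := by
  classical
  have hp0 : 0 < p := by omega
  by_cases hex : ∃ k : ℕ, 0 < k ∧ ∃ j : ℤ, Dp p N j k
  · obtain ⟨hk0, j, hj⟩ := Nat.find_spec hex
    have hmin : ∀ m : ℕ, m < Nat.find hex → ¬(0 < m ∧ ∃ j : ℤ, Dp p N j m) :=
      fun m hm => Nat.find_min hex hm
    set k : ℕ := Nat.find hex with hk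
    by_cases hk1 : k = 1
    · rw [hk1] at hj
      have hdet : (1 : ℤ) * 1 - (-j) * 0 = 1 ∨ (1 : ℤ) * 1 - (-j) * 0 = -1 := by left; norm_num
      apply good_of_im hdet
      apply L2 hB hp (LC_im hdet hN) (QI_im hdet hQ)
      · exact dp_im hdet h10 (by norm_num) (by norm_num)
      · exact dp_im hdet hj (by push_cast; ring) (by push_cast; ring)
    · exfalso
      have hk2 : 2 ≤ k := by omega
      have hkR : (2 : ℝ) ≤ k := by exact_mod_cast hk2
      -- the nearest integer to `j / k`
      set i : ℤ := (2 * j + k) / (2 * k) with hi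
      have h1 : 2 * (k : ℤ) * i ≤ 2 * j + k := by
        have := Int.mul_ediv_self_le (x := 2 * j + k) (k := 2 * (k : ℤ)) (by positivity)
        rw [← hi] at this
        exact this
      have h2 : 2 * j + k < 2 * (k : ℤ) * i + 2 * k := by
        have := Int.lt_mul_ediv_self_add (x := 2 * j + k) (k := 2 * (k : ℤ)) (by positivity)
        rw [← hi] at this
        exact this
      have h1R : 2 * (k : ℝ) * i ≤ 2 * j + k := by exact_mod_cast h1
      have h2R : 2 * (j : ℝ) + k < 2 * k * i + 2 * k := by exact_mod_cast h2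
      have hkk : (0 : ℝ) < k := by linarith
      have hhalf : (1 : ℝ) / k ≤ 1 / 2 := by
        apply one_div_le_one_div_of_le (by norm_num) hkR
      have hW : Wp p N (i : ℝ) ((1 : ℤ) : ℝ) := by
        rcases le_total (j : ℝ) (k * i) with hle | hle
        · -- i - j/k >= 0
          have h3 := wp_comb hj.wp h10.wp (1 / k) (i - j / k) (by positivity) (by
            rw [sub_nonneg, div_le_iff₀ hkk]; linarith) (by
            have : (i : ℝ) - j / k ≤ 1 / 2 := by
              have : (i : ℝ) - j / k = (k * i - j) / k := by field_simp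
              rw [this, div_le_iff₀ hkk]
              linarith
            linarith)
          have e1 : 1 / (k : ℝ) * j + (i - j / k) * ((1 : ℤ) : ℝ) = i := by
            push_cast
            field_simp
            ring
          have e2 : 1 / (k : ℝ) * ((k : ℤ) : ℝ) + (i - j / k) * ((0 : ℤ) : ℝ) = ((1 : ℤ) : ℝ) := by
            push_cast
            field_simp
            ring
          rw [e1, e2] at h3
          exact h3
        · have h3 := wp_comb hj.wp h10.neg.wp (1 / k) (j / k - i) (by positivity) (by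
            rw [sub_nonneg, le_div_iff₀ hkk]; linarith) (by
            have : (j : ℝ) / k - i ≤ 1 / 2 := by
              have : (j : ℝ) / k - i = (j - k * i) / k := by field_simp
              rw [this, div_le_iff₀ hkk]
              linarith
            linarith)
          have e1 : 1 / (k : ℝ) * j + (j / k - i) * ((-1 : ℤ) : ℝ) = i := by
            push_cast
            field_simp
            ring
          have e2 : 1 / (k : ℝ) * ((k : ℤ) : ℝ) + (j / k - i) * ((-0 : ℤ) : ℝ) =
              ((1 : ℤ) : ℝ) := by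
            push_cast
            field_simp
            ring
          rw [e1, e2] at h3
          exact h3
      have hD : Dp p N i 1 := wp_dp hN hp0 (by omega) hW
      exact hmin 1 (by omega) ⟨by norm_num, i, by simpa using hD⟩
  · have hall : ∀ a b : ℤ, Dp p N a b → b = 0 := by
      intro a b hab
      by_contra hcon
      rcases lt_or_gt_of_ne hcon with h | h
      · apply hex
        refine ⟨(-b).toNat, by omega, -a, ?_⟩
        have e : (((-b).toNat : ℕ) : ℤ) = -b := Int.toNat_of_nonneg (by omega)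
        rw [e]
        exact hab.neg
      · apply hex
        refine ⟨b.toNat, by omega, a, ?_⟩
        have e : ((b.toNat : ℕ) : ℤ) = b := Int.toNat_of_nonneg (by omega)
        rw [e]
        exact hab
    apply hB p N hp0 hN hQ
    intro v hv a b hw
    have hab : Dp p N a b := ⟨v, hv, hw⟩
    have hb := hall a b hab
    subst hb
    have h1 : ¬(2 ≤ a) := by
      intro h
      refine no_mult hp0 hN hQ (a := 1) (b := 0) (k := a) (by omega) h ?_
      rw [mul_one, mul_zero]
      exact hab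
    have h2 : ¬(a ≤ -2) := by
      intro h
      refine no_mult hp0 hN hQ (a := -1) (b := 0) (k := -a) (by omega) (by omega) ?_
      have e1 : -a * -1 = a := by ring
      rw [e1, mul_zero]
      exact hab
    omega

theorem L0 {N : Finset (ℤ × ℤ)} (hN : LC N) (hQ : QI (p + 1) N) : Good p N := by
  have hp0 : 0 < p := by omega
  by_cases hex : ∃ a b : ℤ, Dp p N a b ∧ ¬(a = 0 ∧ b = 0)
  · obtain ⟨a, b, hab, hne⟩ := hex
    have hg : 0 < Int.gcd a b := by
      rw [Nat.pos_iff_ne_zero, Ne, Int.gcd_eq_zero_iff]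
      exact hne
    have hg1 : Int.gcd a b = 1 := by
      by_contra hcon
      have h2 : 2 ≤ Int.gcd a b := by omega
      obtain ⟨a', ha'⟩ := Int.gcd_dvd_left a b
      obtain ⟨b', hb'⟩ := Int.gcd_dvd_right a b
      refine no_mult hp0 hN hQ (a := a') (b := b') (k := (Int.gcd a b : ℤ)) ?_
        (by exact_mod_cast h2) ?_
      · rintro ⟨h3, h4⟩
        apply hne
        rw [ha', hb', h3, h4]
        simp
      · rw [← ha', ← hb']
        exact hab
    have hbez := Int.gcd_eq_gcd_ab a b
    rw [hg1] at hbez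
    have hdet : Int.gcdA a b * a - Int.gcdB a b * (-b) = 1 ∨
        Int.gcdA a b * a - Int.gcdB a b * (-b) = -1 := by
      left
      push_cast at hbez
      linarith
    apply good_of_im hdet
    apply L1 hB hp (LC_im hdet hN) (QI_im hdet hQ)
    exact dp_im hdet hab (by push_cast at hbez; linarith) (by ring)
  · apply hB p N hp0 hN hQ
    intro v hv a b hw
    left
    by_contra hcon
    exact hex ⟨a, b, ⟨v, hv, hw⟩, hcon⟩

end

theorem planar_of (hB : PartB) : Planar := by
  classical
  intro p N hp hN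
  obtain ⟨N', hsub, hN', hQ, hcls⟩ := reduce (p + 1) N.card N rfl hN
  have h1 : (cls (p + 1) N).card ≤ N'.card := by
    rw [← hcls]
    exact Finset.card_image_le
  have h2 : (cls p N').card ≤ (cls p N).card := Finset.card_le_card (Finset.image_subset_image hsub)
  have h3 : p ^ 2 * N'.card ≤ (p + 1) ^ 2 * (cls p N').card := by
    by_cases hp2 : 2 ≤ p
    · exact L0 hB hp2 hN' hQ
    · have hp1 : p = 1 := by omega
      subst hp1
      by_cases hne : N' = ∅
      · rw [hne]; simp
      · obtain ⟨v, hv⟩ := Finset.nonempty_iff_ne_empty.2 hne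
        have h4 := card_le_of_QI (by norm_num : 0 < 1 + 1) hQ
        have h5 : 1 ≤ (cls 1 N').card :=
          Finset.card_pos.2 ⟨_, mem_cls.2 ⟨v, hv, rfl⟩⟩
        calc 1 ^ 2 * N'.card ≤ (1 + 1) ^ 2 * 1 := by simpa using h4
          _ ≤ (1 + 1) ^ 2 * (cls 1 N').card := Nat.mul_le_mul_left _ h5
  calc p ^ 2 * (cls (p + 1) N).card ≤ p ^ 2 * N'.card := Nat.mul_le_mul_left _ h1
    _ ≤ (p + 1) ^ 2 * (cls p N').card := h3
    _ ≤ (p + 1) ^ 2 * (cls p N).card := Nat.mul_le_mul_left _ h2

end Pool.Agent.PLM
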