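import Pool.Agent.PLM.Struct
import Pool.Agent.Helper86.BHW.Hit

/-!
Transport of the planar comparison to convex subsets of `Fin 2 -> R`.
-/

open Pool.Agent.Helper86.BHW (cz ipts hit)

namespace Pool.Agent.PLM

theorem planar_le (hP : Planar) (p : ℕ) (hp : 0 < p) (N : Finset (ℤ × ℤ)) (hN : LC N) (q : ℕ)
    (hpq : p ≤ q) : p ^ 2 * (cls q N).card ≤ q ^ 2 * (cls p N).card := by
  induction q, hpq using Nat.le_induction with
  | base => exact le_rfl
  | succ q hpq ih =>
    have h1 := hP q N (by omega) hN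
    have hq : 0 < q ^ 2 := Nat.pow_pos (by omega)
    refine Nat.le_of_mul_le_mul_left ?_ hq
    calc q ^ 2 * (p ^ 2 * (cls (q + 1) N).card) = p ^ 2 * (q ^ 2 * (cls (q + 1) N).card) := by ring
      _ ≤ p ^ 2 * ((q + 1) ^ 2 * (cls q N).card) := Nat.mul_le_mul_left _ h1
      _ = (q + 1) ^ 2 * (p ^ 2 * (cls q N).card) := by ring
      _ ≤ (q + 1) ^ 2 * (q ^ 2 * (cls p N).card) := Nat.mul_le_mul_left _ ih
      _ = q ^ 2 * ((q + 1) ^ 2 * (cls p N).card) := by ring

/-- coordinates -/
def co (z : Fin 2 → ℤ) : ℤ × ℤ := (z 0, z 1)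

theorem co_inj : Function.Injective co := by
  intro x y h
  have h1 := congrArg Prod.fst h
  have h2 := congrArg Prod.snd h
  funext j
  fin_cases j
  · exact h1
  · exact h2

/-- the planar comparison for convex sets with finitely many integer points -/
theorem planar_hit (hP : Planar) (N : Set (Fin 2 → ℝ)) (hN : Convex ℝ N) (hfin : (ipts N).Finite)
    (p q : ℕ) (hp : 0 < p) (hpq : p ≤ q) :
    (hit q N).ncard * p ^ 2 ≤ (hit p N).ncard * q ^ 2 := by
  classical
  set M : Finset (ℤ × ℤ) := hfin.toFinset.image co with hM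
  have hmem : ∀ z : Fin 2 → ℤ, co z ∈ M ↔ z ∈ ipts N := by
    intro z
    rw [hM, Finset.mem_image]
    constructor
    · rintro ⟨w, hw, e⟩
      rw [← co_inj e]
      exact hfin.mem_toFinset.1 hw
    · intro hz
      exact ⟨z, hfin.mem_toFinset.2 hz, rfl⟩
  have hLC : LC M := by
    intro z hz
    let f : (ℝ × ℝ) →ₗ[ℝ] (Fin 2 → ℝ) :=
      { toFun := fun x => ![x.1, x.2]
        map_add' := by intro x y; funext j; fin_cases j <;> simp
        map_smul' := by intro r x; funext j; fin_cases j <;> simp }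
    have hsub : hl M ⊆ f ⁻¹' N := by
      apply convexHull_min
      · rintro _ ⟨v, hv, rfl⟩
        obtain ⟨w, hw, rfl⟩ := Finset.mem_image.1 (Finset.mem_coe.1 hv)
        have hw' : cz w ∈ N := hfin.mem_toFinset.1 hw
        have e : f (rp (co w)) = cz w := by
          funext j
          fin_cases j <;> simp [f, rp, co, cz]
        show f (rp (co w)) ∈ N
        rw [e]
        exact hw'
      · exact hN.linear_preimage f
    have h1 : f (rp z) ∈ N := hsub hz
    have e : z = co ![z.1, z.2] := by
      ext <;> simp [co]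
    rw [e, hmem]
    show cz ![z.1, z.2] ∈ N
    have e2 : cz ![z.1, z.2] = f (rp z) := by
      funext j
      fin_cases j <;> simp [f, rp, cz]
    rw [e2]
    exact h1
  have hcard : ∀ n : ℕ, (hit n N).ncard = (cls n M).card := by
    intro n
    let g : (Fin 2 → ZMod n) → ZMod n × ZMod n := fun c => (c 0, c 1)
    have hg : Function.Injective g := by
      intro x y h
      have h1 := congrArg Prod.fst h
      have h2 := congrArg Prod.snd h
      funext j
      fin_cases j
      · exact h1
      · exact h2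
    have e : g '' hit n N = (cls n M : Set (ZMod n × ZMod n)) := by
      ext c
      constructor
      · rintro ⟨_, ⟨z, hz, rfl⟩, rfl⟩
        exact Finset.mem_coe.2 (mem_cls.2 ⟨co z, (hmem z).2 hz, rfl⟩)
      · intro hc
        obtain ⟨z, hz, rfl⟩ := mem_cls.1 (Finset.mem_coe.1 hc)
        obtain ⟨w, hw, rfl⟩ := Finset.mem_image.1 hz
        exact ⟨_, ⟨w, hfin.mem_toFinset.1 hw, rfl⟩, rfl⟩
    rw [← Set.ncard_image_of_injective _ hg, e, Set.ncard_coe_finset]
  rw [hcard, hcard]
  have := planar_le hP p hp M hLC q hpq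
  linarith [this]

end Pool.Agent.PLM
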